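import Mathlib

/-!
A closing-off lemma: a set of size at most `κ` that is closed under `κ` many requirements of
arity four.
-/

set_option autoImplicit false

open Cardinal

namespace Pool.Agent.Helper54.CC

theorem closing {A ι : Type} (P : ι → (Fin 4 → A) → A → Prop) (a₀ : A) (κ : Cardinal.{0})
    (hκ : ℵ₀ ≤ κ) (hι : #ι ≤ κ) :
    ∃ D : Set A, a₀ ∈ D ∧ #↥D ≤ κ ∧
      ∀ i v, (∀ j, v j ∈ D) → (∃ a, P i v a) → ∃ a ∈ D, P i v a := by
  classical
  have hF : ∀ i v, ∃ b, (∃ a, P i v a) → P i v b := by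
    intro i v
    by_cases h : ∃ a, P i v a
    · obtain ⟨a, ha⟩ := h
      exact ⟨a, fun _ => ha⟩
    · exact ⟨a₀, fun h' => absurd h' h⟩
  choose F hF using hF
  let step : Set A → Set A := fun S =>
    S ∪ Set.range (fun p : ι × (Fin 4 → S) => F p.1 (fun j => (p.2 j).1))
  let Dn : ℕ → Set A := fun n => Nat.rec {a₀} (fun _ S => step S) n
  have hsucc : ∀ n, Dn (n + 1) = step (Dn n) := fun n => rfl
  have hmono : Monotone Dn := monotone_nat_of_le_succ fun n => by
    rw [hsucc]
    exact Set.subset_union_left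
  have hcard : ∀ n, #↥(Dn n) ≤ κ := by
    intro n
    induction n with
    | zero =>
      change #↥({a₀} : Set A) ≤ κ
      rw [mk_singleton]
      exact one_le_aleph0.trans hκ
    | succ n ih =>
      rw [hsucc]
      refine (mk_union_le _ _).trans (add_le_of_le hκ ih ?_)
      refine mk_range_le.trans ?_
      rw [mk_prod, lift_id, lift_id]
      refine (mul_le_mul' hι ?_).trans (mul_eq_self hκ).le
      rw [mk_pi, prod_const, lift_id, lift_id, mk_fin]
      calc #↥(Dn n) ^ ((4 : ℕ) : Cardinal) ≤ κ ^ ((4 : ℕ) : Cardinal) :=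
            power_le_power_right ih
        _ ≤ κ := by
          exact power_nat_le hκ
  refine ⟨⋃ n, Dn n, Set.mem_iUnion.2 ⟨0, rfl⟩, ?_, ?_⟩
  · refine (mk_iUnion_le_sum_mk).trans ?_
    refine (sum_le_sum _ (fun _ => κ) hcard).trans ?_
    rw [sum_const, mk_nat, lift_id, lift_id]
    exact (mul_le_mul' hκ le_rfl).trans (mul_eq_self hκ).le
  · intro i v hv hex
    have h1 : ∀ j, ∃ n, v j ∈ Dn n := fun j => Set.mem_iUnion.1 (hv j)
    choose n hn using h1
    set m := Finset.univ.sup n with hm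
    have h2 : ∀ j, v j ∈ Dn m := fun j => hmono (Finset.le_sup (Finset.mem_univ j)) (hn j)
    refine ⟨F i v, Set.mem_iUnion.2 ⟨m + 1, ?_⟩, hF i v hex⟩
    rw [hsucc]
    exact Or.inr ⟨(i, fun j => ⟨v j, h2 j⟩), rfl⟩

end Pool.Agent.Helper54.CC
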