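import Mathlib

/-!
Cardinal invariants of subsets of a topological vector space, and Choquet simplices.
-/

set_option autoImplicit false

open Cardinal

namespace Pool.Agent.Helper54.CC

variable {E : Type} [AddCommGroup E] [Module ℝ E] [TopologicalSpace E]

/-- The network weight (at least `ℵ₀`) of the subset `S` of `E`, with the subspace topology. -/
noncomputable def netWeight (S : Set E) : Cardinal :=
  ℵ₀ ⊔ sInf {κ : Cardinal | ∃ 𝒩 : Set (Set E), (∀ N ∈ 𝒩, N ⊆ S) ∧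
    (∀ x ∈ S, ∀ U : Set E, IsOpen U → x ∈ U → ∃ N ∈ 𝒩, x ∈ N ∧ N ⊆ U) ∧ #↥𝒩 = κ}

/-- The weight (at least `ℵ₀`) of the subset `S` of `E`, with the subspace topology. -/
noncomputable def weight (S : Set E) : Cardinal :=
  ℵ₀ ⊔ sInf {κ : Cardinal | ∃ ℬ : Set (Set S), TopologicalSpace.IsTopologicalBasis ℬ ∧ #↥ℬ = κ}

/-- The cone over `K × {1}` in `E × ℝ`. -/
def coneOver (K : Set E) : Set (E × ℝ) := {p | ∃ t : ℝ, 0 ≤ t ∧ ∃ x ∈ K, p = (t • x, t)}

/-- `K` is a Choquet simplex: the cone `C` over `K × {1}`, ordered by `a ≤ b ↔ b - a ∈ C`, is a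
lattice, that is, any two elements `a, b` of `C` have a least upper bound in `C`. -/
def IsChoquetSimplex (K : Set E) : Prop :=
  ∀ a ∈ coneOver K, ∀ b ∈ coneOver K, ∃ c ∈ coneOver K,
    (c - a ∈ coneOver K ∧ c - b ∈ coneOver K) ∧
    ∀ d ∈ coneOver K, d - a ∈ coneOver K → d - b ∈ coneOver K → d - c ∈ coneOver K

end Pool.Agent.Helper54.CC
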