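import Mathlib
import Pool.Agent.Helper54.CC.Defs

/-!
Separation arguments in `E × ℝ`.
-/

set_option autoImplicit false
set_option linter.unusedSectionVars false

open Set Cardinal
open scoped Pointwise

namespace Pool.Agent.Helper54.CC

variable {E : Type} [AddCommGroup E] [Module ℝ E] [TopologicalSpace E]
  [IsTopologicalAddGroup E] [ContinuousSMul ℝ E]

/-- Continuous affine functions on `E`, as pairs of a functional and a constant. -/
abbrev Aff (E : Type) [AddCommGroup E] [Module ℝ E] [TopologicalSpace E] : Type :=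
  (E →L[ℝ] ℝ) × ℝ

/-- evaluation of an affine function -/
def ev (a : Aff E) (y : E) : ℝ := a.1 y + a.2

theorem continuous_ev (a : Aff E) : Continuous (ev a) := by
  unfold ev
  fun_prop

theorem ev_comb (a : Aff E) {s t : ℝ} (h : s + t = 1) (x y : E) :
    ev a (s • x + t • y) = s * ev a x + t * ev a y := by
  unfold ev
  rw [map_add, map_smul, map_smul, smul_eq_mul, smul_eq_mul]
  linear_combination (-a.2) * h

/-- the graph of an affine function over `K` -/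
def graph (K : Set E) (a : Aff E) : Set (E × ℝ) := (fun y => (y, ev a y)) '' K

theorem isCompact_graph {K : Set E} (hK : IsCompact K) (a : Aff E) : IsCompact (graph K a) :=
  hK.image (continuous_id.prodMk (continuous_ev a))

theorem convex_graph {K : Set E} (hK : Convex ℝ K) (a : Aff E) : Convex ℝ (graph K a) := by
  rintro _ ⟨x, hx, rfl⟩ _ ⟨y, hy, rfl⟩ s t hs ht hst
  refine ⟨s • x + t • y, hK hx hy hs ht hst, ?_⟩
  rw [Prod.mk.injEq]
  exact ⟨rfl, ev_comb a hst x y⟩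

/-- the join of the graphs of two affine functions over `K` -/
def joinG (K : Set E) (a b : Aff E) : Set (E × ℝ) :=
  (fun q : ℝ × E × E => ((1 - q.1) • q.2.1 + q.1 • q.2.2,
    (1 - q.1) * ev a q.2.1 + q.1 * ev b q.2.2)) '' (Icc (0 : ℝ) 1 ×ˢ K ×ˢ K)

theorem isCompact_joinG {K : Set E} (hK : IsCompact K) (a b : Aff E) :
    IsCompact (joinG K a b) := by
  refine (isCompact_Icc.prod (hK.prod hK)).image ?_
  have ha := continuous_ev a
  have hb := continuous_ev b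
  fun_prop

theorem convexJoin_graph {K : Set E} (a b : Aff E) :
    convexJoin ℝ (graph K a) (graph K b) = joinG K a b := by
  ext p
  rw [mem_convexJoin]
  constructor
  · rintro ⟨_, ⟨x, hx, rfl⟩, _, ⟨y, hy, rfl⟩, hp⟩
    rw [segment_eq_image] at hp
    obtain ⟨t, ht, rfl⟩ := hp
    exact ⟨(t, x, y), ⟨ht, hx, hy⟩, rfl⟩
  · rintro ⟨⟨t, x, y⟩, ⟨ht, hx, hy⟩, rfl⟩
    refine ⟨_, ⟨x, hx, rfl⟩, _, ⟨y, hy, rfl⟩, ?_⟩
    rw [segment_eq_image]
    exact ⟨t, ht, rfl⟩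

theorem convex_joinG {K : Set E} (hK : Convex ℝ K) (a b : Aff E) : Convex ℝ (joinG K a b) := by
  rw [← convexJoin_graph]
  exact (convex_graph hK a).convexJoin (convex_graph hK b)

theorem mem_joinG_left {K : Set E} {a b : Aff E} {y : E} (hy : y ∈ K) :
    (y, ev a y) ∈ joinG K a b :=
  ⟨(0, y, y), ⟨⟨le_rfl, zero_le_one⟩, hy, hy⟩, by simp⟩

theorem mem_joinG_right {K : Set E} {a b : Aff E} {y : E} (hy : y ∈ K) :
    (y, ev b y) ∈ joinG K a b :=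
  ⟨(1, y, y), ⟨⟨zero_le_one, le_rfl⟩, hy, hy⟩, by simp⟩

/-- the affine function whose graph is the level set `{f = β}` -/
noncomputable def level (f : (E × ℝ) →L[ℝ] ℝ) (β : ℝ) : Aff E :=
  (-(f (0, 1))⁻¹ • f.comp (ContinuousLinearMap.inl ℝ E ℝ), β / f (0, 1))

theorem apply_prod (f : (E × ℝ) →L[ℝ] ℝ) (y : E) (t : ℝ) :
    f (y, t) = f (y, 0) + t * f (0, 1) := by
  have h : (y, t) = (y, (0 : ℝ)) + t • ((0 : E), (1 : ℝ)) := by simp
  rw [h, map_add, map_smul, smul_eq_mul]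

theorem lt_level {f : (E × ℝ) →L[ℝ] ℝ} {β : ℝ} (hs : 0 < f (0, 1)) {y : E} {t : ℝ}
    (h : f (y, t) < β) : t < ev (level f β) y := by
  rw [apply_prod] at h
  unfold ev level
  simp only [smul_apply, ContinuousLinearMap.comp_apply,
    ContinuousLinearMap.inl_apply, smul_eq_mul]
  rw [neg_mul, inv_mul_eq_div, ← sub_eq_neg_add, ← sub_div, lt_div_iff₀ hs]
  linarith

theorem level_lt {f : (E × ℝ) →L[ℝ] ℝ} {β : ℝ} (hs : 0 < f (0, 1)) {y : E} {t : ℝ}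
    (h : β < f (y, t)) : ev (level f β) y < t := by
  rw [apply_prod] at h
  unfold ev level
  simp only [smul_apply, ContinuousLinearMap.comp_apply,
    ContinuousLinearMap.inl_apply, smul_eq_mul]
  rw [neg_mul, inv_mul_eq_div, ← sub_eq_neg_add, ← sub_div, div_lt_iff₀ hs]
  linarith

/-- the upper envelope of `max a b` agrees with `max a b` at extreme points -/
theorem exists_above_max [LocallyConvexSpace ℝ E] [T2Space E] {K : Set E} (hK : IsCompact K)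
    (hKc : Convex ℝ K) {x : E}
    (hx : x ∈ K.extremePoints ℝ) (a b : Aff E) {c : ℝ} (ha : ev a x < c) (hb : ev b x < c) :
    ∃ g : Aff E, (∀ y ∈ K, ev a y < ev g y ∧ ev b y < ev g y) ∧ ev g x < c := by
  have hdisj : Disjoint (joinG K a b) ({x} ×ˢ Ici c) := by
    rw [Set.disjoint_left]
    rintro _ ⟨⟨t, y, z⟩, ⟨ht, hy, hz⟩, rfl⟩ ⟨h1, h2⟩
    simp only [mem_singleton_iff] at h1
    simp only [mem_Ici] at h2
    rcases eq_or_lt_of_le ht.1 with h0 | h0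
    · have h0' : t = 0 := h0.symm
      subst h0'
      simp only [sub_zero, one_smul, zero_smul, add_zero, one_mul, zero_mul] at h1 h2
      rw [h1] at h2
      linarith
    · rcases eq_or_lt_of_le ht.2 with h0' | h0'
      · subst h0'
        simp only [sub_self, one_smul, zero_smul, zero_add, one_mul, zero_mul] at h1 h2
        rw [h1] at h2
        linarith
      · have hx' := mem_extremePoints.1 hx
        have h3 := hx'.2 y hy z hz ⟨1 - t, t, by linarith, h0, by ring, h1⟩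
        obtain ⟨h4, h5⟩ := h3
        rw [h4, h5] at h2
        nlinarith
  have hcl : IsClosed (({x} : Set E) ×ˢ Ici c) := isClosed_singleton.prod isClosed_Ici
  have hcv : Convex ℝ (({x} : Set E) ×ˢ Ici c) := (convex_singleton x).prod (convex_Ici c)
  obtain ⟨f, u, v, hu, huv, hv⟩ := geometric_hahn_banach_compact_closed
    (convex_joinG hKc a b) (isCompact_joinG hK a b) hcv hcl hdisj
  have hxK : x ∈ K := hx.1
  have h1 := hu _ (mem_joinG_left (a := a) (b := b) hxK)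
  have h2 := hv (x, c) ⟨rfl, mem_Ici.2 le_rfl⟩
  have hs : 0 < f (0, 1) := by
    rw [apply_prod] at h1 h2
    by_contra hcon
    push Not at hcon
    nlinarith
  refine ⟨level f v, fun y hy => ⟨?_, ?_⟩, ?_⟩
  · exact lt_level hs ((hu _ (mem_joinG_left hy)).trans huv)
  · exact lt_level hs ((hu _ (mem_joinG_right hy)).trans huv)
  · exact level_lt hs h2

/-! ### Interpolation in a Choquet simplex -/

theorem coneOver_add {K : Set E} (hK : Convex ℝ K) {p q : E × ℝ} (hp : p ∈ coneOver K)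
    (hq : q ∈ coneOver K) : p + q ∈ coneOver K := by
  obtain ⟨s, hs, x, hx, rfl⟩ := hp
  obtain ⟨t, ht, y, hy, rfl⟩ := hq
  rcases eq_or_lt_of_le hs with h | h
  · subst h
    refine ⟨t, ht, y, hy, ?_⟩
    simp
  · have hst : 0 < s + t := by linarith
    refine ⟨s + t, hst.le, (s / (s + t)) • x + (t / (s + t)) • y,
      hK hx hy (by positivity) (by positivity) (by field_simp), ?_⟩
    rw [Prod.mk_add_mk, Prod.mk.injEq]
    refine ⟨?_, rfl⟩
    rw [smul_add, smul_smul, smul_smul, mul_div_cancel₀ _ hst.ne', mul_div_cancel₀ _ hst.ne']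

/-- Riesz decomposition in the cone over a Choquet simplex -/
theorem riesz {K : Set E} (hK : Convex ℝ K) (hS : IsChoquetSimplex K) {u₁ u₂ v₁ v₂ : E × ℝ}
    (hu₁ : u₁ ∈ coneOver K) (hu₂ : u₂ ∈ coneOver K) (hv₁ : v₁ ∈ coneOver K)
    (hv₂ : v₂ ∈ coneOver K) (h : u₁ + u₂ = v₁ + v₂) :
    ∃ z₁₁ ∈ coneOver K, ∃ z₁₂ ∈ coneOver K, ∃ z₂₁ ∈ coneOver K, ∃ z₂₂ ∈ coneOver K,
      u₁ = z₁₁ + z₁₂ ∧ u₂ = z₂₁ + z₂₂ ∧ v₁ = z₁₁ + z₂₁ ∧ v₂ = z₁₂ + z₂₂ := by
  obtain ⟨s, hs, ⟨hs1, hs2⟩, hs3⟩ := hS u₁ hu₁ v₁ hv₁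
  refine ⟨u₁ + v₁ - s, ?_, s - v₁, hs2, s - u₁, hs1, u₁ + u₂ - s, ?_, ?_, ?_, ?_, ?_⟩
  · refine hs3 _ (coneOver_add hK hu₁ hv₁) ?_ ?_
    · rwa [add_sub_cancel_left]
    · rwa [add_sub_cancel_right]
  · refine hs3 _ (coneOver_add hK hu₁ hu₂) ?_ ?_
    · rwa [add_sub_cancel_left]
    · rw [h, add_sub_cancel_left]
      exact hv₂
  · abel
  · abel
  · abel
  · rw [h]
    abel

/-- the homogeneous extension of an affine function -/
def hom (a : Aff E) (p : E × ℝ) : ℝ := a.1 p.1 + a.2 * p.2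

theorem hom_add (a : Aff E) (p q : E × ℝ) : hom a (p + q) = hom a p + hom a q := by
  unfold hom
  rw [Prod.fst_add, Prod.snd_add, map_add]
  ring

theorem hom_smul (a : Aff E) (t : ℝ) (x : E) : hom a (t • x, t) = t * ev a x := by
  unfold hom ev
  rw [map_smul, smul_eq_mul]
  ring

theorem hom_le {K : Set E} {a b : Aff E} (h : ∀ y ∈ K, ev a y < ev b y) {p : E × ℝ}
    (hp : p ∈ coneOver K) : hom a p ≤ hom b p ∧ (0 < p.2 → hom a p < hom b p) := by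
  obtain ⟨t, ht, x, hx, rfl⟩ := hp
  rw [hom_smul, hom_smul]
  exact ⟨mul_le_mul_of_nonneg_left (h x hx).le ht, fun h0 => mul_lt_mul_of_pos_left (h x hx) h0⟩

theorem snd_nonneg {K : Set E} {p : E × ℝ} (hp : p ∈ coneOver K) : 0 ≤ p.2 := by
  obtain ⟨t, ht, x, hx, rfl⟩ := hp
  exact ht

theorem joinG_lt {K : Set E} (hK : Convex ℝ K) (hS : IsChoquetSimplex K)
    {a₁ a₂ b₁ b₂ : Aff E} (h₁₁ : ∀ y ∈ K, ev a₁ y < ev b₁ y) (h₁₂ : ∀ y ∈ K, ev a₁ y < ev b₂ y)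
    (h₂₁ : ∀ y ∈ K, ev a₂ y < ev b₁ y) (h₂₂ : ∀ y ∈ K, ev a₂ y < ev b₂ y) {x : E} {t s : ℝ}
    (ht : (x, t) ∈ joinG K a₁ a₂) (hs : (x, s) ∈ joinG K b₁ b₂) : t < s := by
  obtain ⟨⟨l, x₁, x₂⟩, ⟨hl, hx₁, hx₂⟩, h1⟩ := ht
  obtain ⟨⟨m, y₁, y₂⟩, ⟨hm, hy₁, hy₂⟩, h2⟩ := hs
  rw [Prod.mk.injEq] at h1 h2
  obtain ⟨h1, rfl⟩ := h1
  obtain ⟨h2, rfl⟩ := h2
  simp only at h1 h2 hl hm hx₁ hx₂ hy₁ hy₂ ⊢
  have hu₁ : (((1 - l) • x₁, 1 - l) : E × ℝ) ∈ coneOver K :=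
    ⟨1 - l, by linarith [hl.2], x₁, hx₁, rfl⟩
  have hu₂ : ((l • x₂, l) : E × ℝ) ∈ coneOver K := ⟨l, hl.1, x₂, hx₂, rfl⟩
  have hv₁ : (((1 - m) • y₁, 1 - m) : E × ℝ) ∈ coneOver K :=
    ⟨1 - m, by linarith [hm.2], y₁, hy₁, rfl⟩
  have hv₂ : ((m • y₂, m) : E × ℝ) ∈ coneOver K := ⟨m, hm.1, y₂, hy₂, rfl⟩
  have hsum : (((1 - l) • x₁, 1 - l) : E × ℝ) + (l • x₂, l) =
      ((1 - m) • y₁, 1 - m) + (m • y₂, m) := by
    rw [Prod.mk_add_mk, Prod.mk_add_mk, h1, h2]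
    simp
  obtain ⟨z₁₁, hz₁₁, z₁₂, hz₁₂, z₂₁, hz₂₁, z₂₂, hz₂₂, e1, e2, e3, e4⟩ :=
    riesz hK hS hu₁ hu₂ hv₁ hv₂ hsum
  rw [← hom_smul, ← hom_smul, ← hom_smul, ← hom_smul, e1, e2, e3, e4, hom_add, hom_add, hom_add,
    hom_add]
  have k11 := hom_le h₁₁ hz₁₁
  have k12 := hom_le h₁₂ hz₁₂
  have k21 := hom_le h₂₁ hz₂₁
  have k22 := hom_le h₂₂ hz₂₂
  have n11 := snd_nonneg hz₁₁
  have n12 := snd_nonneg hz₁₂
  have n21 := snd_nonneg hz₂₁
  have n22 := snd_nonneg hz₂₂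
  have htot : z₁₁.2 + z₁₂.2 + (z₂₁.2 + z₂₂.2) = 1 := by
    have e1' := congrArg Prod.snd e1
    have e2' := congrArg Prod.snd e2
    simp only [Prod.snd_add] at e1' e2'
    linarith
  have hpos : 0 < z₁₁.2 ∨ 0 < z₁₂.2 ∨ 0 < z₂₁.2 ∨ 0 < z₂₂.2 := by
    by_contra hcon
    push Not at hcon
    linarith [hcon.1, hcon.2.1, hcon.2.2.1, hcon.2.2.2]
  rcases hpos with h | h | h | h
  · linarith [k11.2 h, k12.1, k21.1, k22.1]
  · linarith [k12.2 h, k11.1, k21.1, k22.1]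
  · linarith [k21.2 h, k12.1, k11.1, k22.1]
  · linarith [k22.2 h, k12.1, k21.1, k11.1]

/-- strict interpolation (Edwards) in a Choquet simplex -/
theorem exists_between [LocallyConvexSpace ℝ E] [T2Space E] {K : Set E} (hKco : IsCompact K)
    (hK : Convex ℝ K) (hne : K.Nonempty) (hS : IsChoquetSimplex K)
    {a₁ a₂ b₁ b₂ : Aff E} (h₁₁ : ∀ y ∈ K, ev a₁ y < ev b₁ y) (h₁₂ : ∀ y ∈ K, ev a₁ y < ev b₂ y)
    (h₂₁ : ∀ y ∈ K, ev a₂ y < ev b₁ y) (h₂₂ : ∀ y ∈ K, ev a₂ y < ev b₂ y) :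
    ∃ g : Aff E, ∀ y ∈ K, ev a₁ y < ev g y ∧ ev a₂ y < ev g y ∧ ev g y < ev b₁ y ∧
      ev g y < ev b₂ y := by
  set J₁ := joinG K a₁ a₂ with hJ₁
  set J₂ := joinG K b₁ b₂ with hJ₂
  have c₁ : IsCompact J₁ := isCompact_joinG hKco _ _
  have c₂ : IsCompact J₂ := isCompact_joinG hKco _ _
  have hdisj : Disjoint (J₁ - J₂) (({0} : Set E) ×ˢ Ici (0 : ℝ)) := by
    rw [Set.disjoint_left]
    rintro _ ⟨p, hp, q, hq, rfl⟩ ⟨h1, h2⟩
    simp only [Prod.fst_sub, mem_singleton_iff] at h1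
    simp only [Prod.snd_sub, mem_Ici] at h2
    have h3 : p.1 = q.1 := sub_eq_zero.1 h1
    have h4 : (p.1, q.2) ∈ joinG K b₁ b₂ := by
      rw [h3]
      exact hq
    have := joinG_lt hK hS h₁₁ h₁₂ h₂₁ h₂₂ (x := p.1) (t := p.2) hp h4
    linarith
  have hcl : IsClosed (({0} : Set E) ×ˢ Ici (0 : ℝ)) := isClosed_singleton.prod isClosed_Ici
  have hcv : Convex ℝ (({0} : Set E) ×ˢ Ici (0 : ℝ)) :=
    (convex_singleton 0).prod (convex_Ici 0)
  obtain ⟨f, u, v, hu, huv, hv⟩ := geometric_hahn_banach_compact_closed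
    ((convex_joinG hK a₁ a₂).sub (convex_joinG hK b₁ b₂)) (by simpa [sub_eq_add_neg] using c₁.add c₂.neg) hcv hcl hdisj
  have hf0 : f ((0 : E), (0 : ℝ)) = 0 := by
    have : ((0 : E), (0 : ℝ)) = 0 := rfl
    rw [this, map_zero]
  have hv0 : v < 0 := by
    have := hv (0, 0) ⟨rfl, mem_Ici.2 le_rfl⟩
    rwa [hf0] at this
  obtain ⟨y₀, hy₀⟩ := hne
  have hs : 0 < f (0, 1) := by
    have h1 := hu _ (Set.sub_mem_sub (mem_joinG_left (a := a₁) (b := a₂) hy₀)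
      (mem_joinG_left (a := b₁) (b := b₂) hy₀))
    rw [Prod.mk_sub_mk, sub_self, apply_prod] at h1
    rw [hf0, zero_add] at h1
    have h3 := h₁₁ y₀ hy₀
    by_contra hcon
    push Not at hcon
    nlinarith
  obtain ⟨p₀, hp₀, hmax⟩ := c₁.exists_isMaxOn ⟨_, mem_joinG_left (a := a₁) (b := a₂) hy₀⟩
    f.continuous.continuousOn
  set β := f p₀ - u / 2 with hβ
  have hu0 : u < 0 := huv.trans hv0
  have hlow : ∀ p ∈ J₁, f p < β := by
    intro p hp
    have : f p ≤ f p₀ := hmax hp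
    rw [hβ]
    linarith
  have hupp : ∀ q ∈ J₂, β < f q := by
    intro q hq
    have := hu _ (Set.sub_mem_sub hp₀ hq)
    rw [map_sub] at this
    rw [hβ]
    linarith
  refine ⟨level f β, fun y hy => ⟨?_, ?_, ?_, ?_⟩⟩
  · exact lt_level hs (hlow _ (mem_joinG_left hy))
  · exact lt_level hs (hlow _ (mem_joinG_right hy))
  · exact level_lt hs (hupp _ (mem_joinG_left hy))
  · exact level_lt hs (hupp _ (mem_joinG_right hy))

end Pool.Agent.Helper54.CC
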