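import Mathlib
import Pool.Agent.Helper54.CC.Sep
import Pool.Agent.Helper54.CC.Closing

/-!
Small families of affine functions that see all extreme points.
-/

set_option autoImplicit false
set_option linter.unusedSectionVars false

open Set Cardinal
open scoped Pointwise

namespace Pool.Agent.Helper54.CC

variable {E : Type} [AddCommGroup E] [Module ℝ E] [TopologicalSpace E]
  [IsTopologicalAddGroup E] [ContinuousSMul ℝ E]

theorem ev_neg (a : Aff E) (y : E) : ev (-a) y = -ev a y := by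
  unfold ev
  simp
  ring

theorem ev_add (a b : Aff E) (y : E) : ev (a + b) y = ev a y + ev b y := by
  unfold ev
  simp
  ring

/-- constant affine function -/
noncomputable def cst (r : ℝ) : Aff E := (0, r)

theorem ev_cst (r : ℝ) (y : E) : ev (cst r : Aff E) y = r := by
  unfold ev cst
  simp

/-- The closure properties of the families of affine functions that we use. -/
structure Good (K : Set E) (D : Set (Aff E)) : Prop where
  const : ∀ q : ℚ, cst (q : ℝ) ∈ D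
  neg : ∀ a ∈ D, -a ∈ D
  add : ∀ a ∈ D, ∀ b ∈ D, a + b ∈ D
  sep : ∀ x ∈ K.extremePoints ℝ, ∀ z ∈ K.extremePoints ℝ, x ≠ z → ∃ a ∈ D, ev a x ≠ ev a z
  mx : ∀ a ∈ D, ∀ b ∈ D, ∀ x ∈ K.extremePoints ℝ, ∀ c : ℝ, ev a x < c → ev b x < c →
    ∃ g ∈ D, (∀ y ∈ K, ev a y < ev g y ∧ ev b y < ev g y) ∧ ev g x < c
  interp : ∀ a₁ ∈ D, ∀ a₂ ∈ D, ∀ b₁ ∈ D, ∀ b₂ ∈ D,
    (∃ g : Aff E, ∀ y ∈ K, ev a₁ y < ev g y ∧ ev a₂ y < ev g y ∧ ev g y < ev b₁ y ∧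
      ev g y < ev b₂ y) →
    ∃ g ∈ D, ∀ y ∈ K, ev a₁ y < ev g y ∧ ev a₂ y < ev g y ∧ ev g y < ev b₁ y ∧ ev g y < ev b₂ y

/-- the requirements -/
def Req (K : Set E) (𝒩 : Set (Set E)) :
    (ℚ ⊕ Fin 3 ⊕ (𝒩 × 𝒩) ⊕ (ℕ × 𝒩)) → (Fin 4 → Aff E) → Aff E → Prop
  | .inl q, _, a => a = cst (q : ℝ)
  | .inr (.inl 0), v, a => a = -v 0
  | .inr (.inl 1), v, a => a = v 0 + v 1
  | .inr (.inl 2), v, a => ∀ y ∈ K, ev (v 0) y < ev a y ∧ ev (v 1) y < ev a y ∧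
      ev a y < ev (v 2) y ∧ ev a y < ev (v 3) y
  | .inr (.inr (.inl p)), _, a => ∀ y ∈ p.1.1, ∀ z ∈ p.2.1, ev a y < ev a z
  | .inr (.inr (.inr p)), v, a => (∀ y ∈ K, ev (v 0) y < ev a y ∧ ev (v 1) y < ev a y) ∧
      ∀ y ∈ p.2.1, ev a y < max (ev (v 0) y) (ev (v 1) y) + 1 / ((p.1 : ℝ) + 1)

theorem exists_good [LocallyConvexSpace ℝ E] [T2Space E] {K : Set E} (hK : IsCompact K)
    (hKc : Convex ℝ K) (𝒩 : Set (Set E))
    (h𝒩 : ∀ x ∈ K.extremePoints ℝ, ∀ U : Set E, IsOpen U → x ∈ U → ∃ N ∈ 𝒩, x ∈ N ∧ N ⊆ U)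
    (κ : Cardinal.{0}) (hκ : ℵ₀ ≤ κ) (hcard : #↥𝒩 ≤ κ) :
    ∃ D : Set (Aff E), #↥D ≤ κ ∧ Good K D := by
  have hι : #(ℚ ⊕ Fin 3 ⊕ (𝒩 × 𝒩) ⊕ (ℕ × 𝒩)) ≤ κ := by
    simp only [mk_sum, mk_prod, lift_id, mk_fin, mk_nat]
    refine add_le_of_le hκ ((mk_le_aleph0).trans hκ) ?_
    refine add_le_of_le hκ ((natCast_lt_aleph0.le).trans hκ) ?_
    refine add_le_of_le hκ ?_ ?_
    · exact (mul_le_mul' hcard hcard).trans (mul_eq_self hκ).le
    · exact (mul_le_mul' hκ hcard).trans (mul_eq_self hκ).le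
  obtain ⟨D, h0, hD, hP⟩ := closing (Req K 𝒩) (cst 0) κ hκ hι
  have hfin : ∀ (a b c d : Aff E), a ∈ D → b ∈ D → c ∈ D → d ∈ D →
      ∀ j, (![a, b, c, d] : Fin 4 → Aff E) j ∈ D := by
    intro a b c d ha hb hc hd j
    fin_cases j <;> assumption
  refine ⟨D, hD, ?_, ?_, ?_, ?_, ?_, ?_⟩
  · intro q
    obtain ⟨a, ha, hPa⟩ := hP (.inl q) ![cst 0, cst 0, cst 0, cst 0] (hfin _ _ _ _ h0 h0 h0 h0)
      ⟨_, rfl⟩
    rw [Req] at hPa
    rwa [← hPa]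
  · intro b hb
    obtain ⟨a, ha, hPa⟩ := hP (.inr (.inl 0)) ![b, b, b, b] (hfin _ _ _ _ hb hb hb hb) ⟨_, rfl⟩
    rw [Req] at hPa
    simp only [Matrix.cons_val_zero] at hPa
    rwa [← hPa]
  · intro b hb c hc
    obtain ⟨a, ha, hPa⟩ := hP (.inr (.inl 1)) ![b, c, c, c] (hfin _ _ _ _ hb hc hc hc) ⟨_, rfl⟩
    rw [Req] at hPa
    simp only [Matrix.cons_val_zero, Matrix.cons_val_one] at hPa
    rwa [← hPa]
  · intro x hx z hz hxz
    obtain ⟨f, hf⟩ := geometric_hahn_banach_point_point hxz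
    set r := (f x + f z) / 2 with hr
    obtain ⟨N, hN, hxN, hNU⟩ := h𝒩 x hx {y | f y < r} (isOpen_lt f.continuous continuous_const)
      (by simp only [mem_ofPred_eq, hr]; linarith)
    obtain ⟨N', hN', hzN, hNU'⟩ := h𝒩 z hz {y | r < f y}
      (isOpen_lt continuous_const f.continuous) (by simp only [mem_ofPred_eq, hr]; linarith)
    obtain ⟨a, ha, hPa⟩ := hP (.inr (.inr (.inl (⟨N, hN⟩, ⟨N', hN'⟩))))
      ![cst 0, cst 0, cst 0, cst 0] (hfin _ _ _ _ h0 h0 h0 h0) ⟨(f, 0), by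
        intro y hy w hw
        have h1 : f y < r := hNU hy
        have h2 : r < f w := hNU' hw
        unfold ev
        simp only
        linarith⟩
    exact ⟨a, ha, (hPa x hxN z hzN).ne⟩
  · intro a ha b hb x hx c hac hbc
    obtain ⟨k, hk⟩ := exists_nat_one_div_lt (sub_pos.2 (max_lt hac hbc))
    set c' := max (ev a x) (ev b x) + 1 / ((k : ℝ) + 1) with hc'
    have hpos : (0 : ℝ) < 1 / ((k : ℝ) + 1) := by positivity
    obtain ⟨g₀, hg₀, hg₀x⟩ := exists_above_max hK hKc hx a b (c := c')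
      (by rw [hc']; linarith [le_max_left (ev a x) (ev b x)])
      (by rw [hc']; linarith [le_max_right (ev a x) (ev b x)])
    obtain ⟨N, hN, hxN, hNU⟩ := h𝒩 x hx
      {y | ev g₀ y < max (ev a y) (ev b y) + 1 / ((k : ℝ) + 1)}
      (isOpen_lt (continuous_ev g₀)
        (((continuous_ev a).max (continuous_ev b)).add continuous_const)) hg₀x
    obtain ⟨g, hg, hPg⟩ := hP (.inr (.inr (.inr (k, ⟨N, hN⟩)))) ![a, b, b, b]
      (hfin _ _ _ _ ha hb hb hb) ⟨g₀, hg₀, fun y hy => hNU hy⟩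
    refine ⟨g, hg, hPg.1, ?_⟩
    have h1 := hPg.2 x hxN
    simp only [Matrix.cons_val_zero, Matrix.cons_val_one] at h1
    linarith
  · rintro a₁ h₁ a₂ h₂ b₁ h₃ b₂ h₄ ⟨g₀, hg₀⟩
    obtain ⟨g, hg, hPg⟩ := hP (.inr (.inl 2)) ![a₁, a₂, b₁, b₂] (hfin _ _ _ _ h₁ h₂ h₃ h₄)
      ⟨g₀, hg₀⟩
    exact ⟨g, hg, hPg⟩

end Pool.Agent.Helper54.CC
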