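import Mathlib
import Pool.Agent.Helper54.CC.Good

/-!
Weight and network weight of the set of extreme points; the case of simplices.
-/

set_option autoImplicit false
set_option linter.unusedSectionVars false

open Set Cardinal
open scoped Pointwise

namespace Pool.Agent.Helper54.CC

variable {E : Type} [AddCommGroup E] [Module ℝ E] [TopologicalSpace E]
  [IsTopologicalAddGroup E] [ContinuousSMul ℝ E]

theorem Good.sub_cst {K : Set E} {D : Set (Aff E)} (hD : Good K D) {a : Aff E} (ha : a ∈ D)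
    (q : ℚ) : a + cst (-(q : ℝ)) ∈ D := by
  have := hD.const (-q)
  rw [Rat.cast_neg] at this
  exact hD.add _ ha _ this

/-- functions above `|g - q|` -/
theorem Good.exists_abs {K : Set E} {D : Set (Aff E)} (hD : Good K D) {g : Aff E} (hg : g ∈ D)
    (q : ℚ) {x : E} (hx : x ∈ K.extremePoints ℝ) {c : ℝ} (hc : |ev g x - q| < c) :
    ∃ a ∈ D, (∀ y ∈ K, |ev g y - q| < ev a y) ∧ ev a x < c := by
  have h1 := hD.sub_cst hg q
  have h2 := hD.neg _ h1
  have e1 : ∀ y, ev (g + cst (-(q : ℝ)) : Aff E) y = ev g y - q := fun y => by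
    rw [ev_add, ev_cst]
    ring
  have e2 : ∀ y, ev (-(g + cst (-(q : ℝ))) : Aff E) y = -(ev g y - q) := fun y => by
    rw [ev_neg, e1]
  obtain ⟨a, ha, h3, h4⟩ := hD.mx _ h1 _ h2 x hx c (by rw [e1]; exact (abs_lt.1 hc).2)
    (by rw [e2]; linarith [(abs_lt.1 hc).1])
  refine ⟨a, ha, fun y hy => ?_, h4⟩
  have h5 := h3 y hy
  rw [e1, e2] at h5
  exact abs_lt.2 ⟨by linarith [h5.2], h5.1⟩

/-- the fibre of the family `D` through `x` -/
def fib (K : Set E) (D : Set (Aff E)) (x : E) : Set E := {y | y ∈ K ∧ ∀ a ∈ D, ev a y = ev a x}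

theorem isExtreme_fib {K : Set E} {D : Set (Aff E)} (hD : Good K D) {x : E}
    (hx : x ∈ K.extremePoints ℝ) : IsExtreme ℝ K (fib K D x) := by
  refine ⟨fun y hy => hy.1, ?_⟩
  rintro u hu v hv y ⟨hyK, hy⟩ ⟨s, t, hs, ht, hst, rfl⟩
  refine ⟨hu, fun g hg => ?_⟩
  by_contra hne
  set δ := |ev g u - ev g x| with hδ
  have hδpos : 0 < δ := abs_pos.2 (sub_ne_zero.2 hne)
  -- choose a rational close to `ev g x`
  set η := s * δ / 4 with hη
  have hηpos : 0 < η := by positivity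
  obtain ⟨q, hq1, hq2⟩ := exists_rat_btwn (show ev g x < ev g x + η by linarith)
  have hqx : |ev g x - q| < η := abs_lt.2 ⟨by linarith, by linarith⟩
  obtain ⟨a, ha, haK, hax⟩ := hD.exists_abs hg q hx hqx
  have h1 := hy a ha
  rw [ev_comb a hst] at h1
  have h2 := haK u hu
  have h3 := haK v hv
  have h4 : 0 ≤ ev a v := (abs_nonneg _).trans h3.le
  have h5 : δ ≤ |ev g u - q| + |ev g x - q| := by
    rw [hδ]
    calc |ev g u - ev g x| = |(ev g u - q) - (ev g x - q)| := by ring_nf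
      _ ≤ |ev g u - q| + |ev g x - q| := abs_sub _ _
  have hs1 : s ≤ 1 := by linarith
  have h6 : s * ev a u < η := by nlinarith
  have h7 : s * (δ - η) ≤ s * ev a u := by
    apply mul_le_mul_of_nonneg_left _ hs.le
    linarith
  have h8 : s * η ≤ η := by nlinarith
  have h9 : s * δ = 4 * η := by rw [hη]; ring
  nlinarith

theorem fib_eq_singleton [LocallyConvexSpace ℝ E] [T2Space E] {K : Set E} (hK : IsCompact K)
    (hKc : Convex ℝ K) {D : Set (Aff E)} (hD : Good K D) {x : E}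
    (hx : x ∈ K.extremePoints ℝ) : fib K D x = {x} := by
  have hex := isExtreme_fib hD hx
  have hcl : IsClosed (fib K D x) := by
    have : fib K D x = K ∩ ⋂ a ∈ D, {y | ev a y = ev a x} := by
      ext y
      simp [fib]
    rw [this]
    exact hK.isClosed.inter (isClosed_biInter fun a _ =>
      isClosed_eq (continuous_ev a) continuous_const)
  have hcpt : IsCompact (fib K D x) := hK.of_isClosed_subset hcl hex.subset
  have hcv : Convex ℝ (fib K D x) := by
    rintro u ⟨hu, hu'⟩ v ⟨hv, hv'⟩ s t hs ht hst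
    refine ⟨hKc hu hv hs ht hst, fun a ha => ?_⟩
    rw [ev_comb a hst, hu' a ha, hv' a ha]
    linear_combination (ev a x) * hst
  have hext : (fib K D x).extremePoints ℝ ⊆ {x} := by
    intro z hz
    by_contra hne
    obtain ⟨a, ha, h⟩ := hD.sep z (hex.extremePoints_subset_extremePoints hz) x hx hne
    exact h (hz.1.2 a ha)
  have hxf : x ∈ fib K D x := ⟨hx.1, fun _ _ => rfl⟩
  refine Subset.antisymm ?_ (singleton_subset_iff.2 hxf)
  rw [← closure_convexHull_extremePoints hcpt hcv]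
  refine closure_minimal ?_ isClosed_singleton
  exact convexHull_min hext (convex_singleton x)

/-- basic open sets -/
def box (D : Set (Aff E)) (s : Finset (D × ℚ × ℚ)) : Set E :=
  {y | ∀ p ∈ s, (p.2.1 : ℝ) < ev p.1.1 y ∧ ev p.1.1 y < (p.2.2 : ℝ)}

theorem isOpen_box (D : Set (Aff E)) (s : Finset (D × ℚ × ℚ)) : IsOpen (box D s) := by
  have : box D s = ⋂ p ∈ s, {y | (p.2.1 : ℝ) < ev p.1.1 y ∧ ev p.1.1 y < (p.2.2 : ℝ)} := by
    ext y
    simp [box]
  rw [this]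
  exact isOpen_biInter_finset fun p _ =>
    (isOpen_lt continuous_const (continuous_ev _)).inter
      (isOpen_lt (continuous_ev _) continuous_const)

theorem exists_box [T2Space E] {K : Set E} (hK : IsCompact K) {D : Set (Aff E)} {x : E}
    (hx : ∀ y ∈ K, (∀ a ∈ D, ev a y = ev a x) → y = x) {U : Set E} (hU : IsOpen U)
    (hxU : x ∈ U) : ∃ s : Finset (D × ℚ × ℚ), x ∈ box D s ∧ box D s ∩ K ⊆ U := by
  classical
  have h : ∃ s : Finset (D × ℚ × ℚ), x ∈ box D s ∧ box D s ∩ (K \ U) = ∅ := by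
    refine (hK.diff hU).induction_on (p := fun T => ∃ s : Finset (D × ℚ × ℚ),
      x ∈ box D s ∧ box D s ∩ T = ∅) ?_ ?_ ?_ ?_
    · exact ⟨∅, by simp [box], by simp⟩
    · rintro T T' hTT' ⟨s, hs, hs'⟩
      exact ⟨s, hs, by
        rw [← subset_empty_iff, ← hs']
        exact inter_subset_inter_right _ hTT'⟩
    · rintro T T' ⟨s, hs, hs1⟩ ⟨s', hs', hs2⟩
      refine ⟨s ∪ s', ?_, ?_⟩
      · intro p hp
        rcases Finset.mem_union.1 hp with h | h
        · exact hs p h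
        · exact hs' p h
      · rw [← subset_empty_iff]
        rintro y ⟨hy, hyT⟩
        have h1 : y ∈ box D s := fun p hp => hy p (Finset.mem_union_left _ hp)
        have h2 : y ∈ box D s' := fun p hp => hy p (Finset.mem_union_right _ hp)
        rcases hyT with h | h
        · rw [← hs1]
          exact ⟨h1, h⟩
        · rw [← hs2]
          exact ⟨h2, h⟩
    · rintro y ⟨hyK, hyU⟩
      have hne : ∃ a ∈ D, ev a y ≠ ev a x := by
        by_contra hcon
        push Not at hcon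
        exact hyU (by rw [hx y hyK hcon]; exact hxU)
      obtain ⟨a, ha, hay⟩ := hne
      -- a rational interval around `ev a x` whose closure misses `ev a y`
      have h1 : ∃ q₁ q₂ : ℚ, (q₁ : ℝ) < ev a x ∧ ev a x < q₂ ∧
          (ev a y < q₁ ∨ (q₂ : ℝ) < ev a y) := by
        rcases lt_or_gt_of_ne hay with h | h
        · obtain ⟨q₁, h1, h2⟩ := exists_rat_btwn h
          obtain ⟨q₂, h3, -⟩ := exists_rat_btwn (show ev a x < ev a x + 1 by linarith)
          exact ⟨q₁, q₂, h2, h3, Or.inl h1⟩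
        · obtain ⟨q₂, h1, h2⟩ := exists_rat_btwn h
          obtain ⟨q₁, -, h3⟩ := exists_rat_btwn (show ev a x - 1 < ev a x by linarith)
          exact ⟨q₁, q₂, h3, h1, Or.inr h2⟩
      obtain ⟨q₁, q₂, h2, h3, h4⟩ := h1
      refine ⟨{z | ev a z < q₁ ∨ (q₂ : ℝ) < ev a z}, mem_nhdsWithin_of_mem_nhds ?_,
        {(⟨a, ha⟩, q₁, q₂)}, ?_, ?_⟩
      · exact ((isOpen_lt (continuous_ev a) continuous_const).union
          (isOpen_lt continuous_const (continuous_ev a))).mem_nhds h4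
      · intro p hp
        rw [Finset.mem_singleton] at hp
        subst hp
        exact ⟨h2, h3⟩
      · rw [← subset_empty_iff]
        rintro z ⟨hz, hz'⟩
        have h5 := hz _ (Finset.mem_singleton_self _)
        simp only at h5
        rcases hz' with h | h
        · linarith [h5.1]
        · linarith [h5.2]
  obtain ⟨s, hs, hs'⟩ := h
  refine ⟨s, hs, ?_⟩
  rintro y ⟨hy, hyK⟩
  by_contra hyU
  have : y ∈ box D s ∩ (K \ U) := ⟨hy, hyK, hyU⟩
  rw [hs'] at this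
  exact this

theorem card_finset_le {D : Set (Aff E)} {κ : Cardinal.{0}} (hκ : ℵ₀ ≤ κ) (hD : #↥D ≤ κ) :
    #(Finset (D × ℚ × ℚ)) ≤ κ := by
  have h1 : #(D × ℚ × ℚ) ≤ κ := by
    simp only [mk_prod, lift_id]
    have hQ : #ℚ ≤ κ := mk_le_aleph0.trans hκ
    exact (mul_le_mul' hD ((mul_le_mul' hQ hQ).trans (mul_eq_self hκ).le)).trans
      (mul_eq_self hκ).le
  rcases finite_or_infinite (D × ℚ × ℚ) with h | h
  · have : Finite (Finset (D × ℚ × ℚ)) := inferInstance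
    exact (mk_le_aleph0).trans hκ
  · rw [mk_finset_of_infinite]
    exact h1

/-! ### Cardinal invariants -/

theorem netWeight_le {S : Set E} {κ : Cardinal.{0}} (hκ : ℵ₀ ≤ κ) {𝒩 : Set (Set E)}
    (h1 : ∀ N ∈ 𝒩, N ⊆ S)
    (h2 : ∀ x ∈ S, ∀ U : Set E, IsOpen U → x ∈ U → ∃ N ∈ 𝒩, x ∈ N ∧ N ⊆ U)
    (h3 : #↥𝒩 ≤ κ) : netWeight S ≤ κ := by
  refine sup_le hκ (le_trans (csInf_le' ?_) h3)
  exact ⟨𝒩, h1, h2, rfl⟩

theorem exists_net (S : Set E) : ∃ 𝒩 : Set (Set E), (∀ N ∈ 𝒩, N ⊆ S) ∧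
    (∀ x ∈ S, ∀ U : Set E, IsOpen U → x ∈ U → ∃ N ∈ 𝒩, x ∈ N ∧ N ⊆ U) ∧
    #↥𝒩 ≤ netWeight S := by
  have hne : {κ : Cardinal | ∃ 𝒩 : Set (Set E), (∀ N ∈ 𝒩, N ⊆ S) ∧
      (∀ x ∈ S, ∀ U : Set E, IsOpen U → x ∈ U → ∃ N ∈ 𝒩, x ∈ N ∧ N ⊆ U) ∧
      #↥𝒩 = κ}.Nonempty := by
    refine ⟨_, {N | ∃ x ∈ S, N = {x}}, ?_, ?_, rfl⟩
    · rintro _ ⟨x, hx, rfl⟩
      exact singleton_subset_iff.2 hx
    · intro x hx U _ hxU
      exact ⟨{x}, ⟨x, hx, rfl⟩, rfl, singleton_subset_iff.2 hxU⟩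
  obtain ⟨𝒩, h1, h2, h3⟩ := csInf_mem hne
  exact ⟨𝒩, h1, h2, h3.le.trans le_sup_right⟩

theorem weight_le {S : Set E} {κ : Cardinal.{0}} (hκ : ℵ₀ ≤ κ) {ℬ : Set (Set S)}
    (h1 : TopologicalSpace.IsTopologicalBasis ℬ) (h3 : #↥ℬ ≤ κ) : weight S ≤ κ := by
  refine sup_le hκ (le_trans (csInf_le' ?_) h3)
  exact ⟨ℬ, h1, rfl⟩

theorem aleph0_le_netWeight (S : Set E) : ℵ₀ ≤ netWeight S := le_sup_left
theorem aleph0_le_weight (S : Set E) : ℵ₀ ≤ weight S := le_sup_left

theorem netWeight_le_weight (S : Set E) : netWeight S ≤ weight S := by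
  have hne : {κ : Cardinal | ∃ ℬ : Set (Set S),
      TopologicalSpace.IsTopologicalBasis ℬ ∧ #↥ℬ = κ}.Nonempty :=
    ⟨_, _, TopologicalSpace.isTopologicalBasis_opens, rfl⟩
  obtain ⟨ℬ, h1, h2⟩ := csInf_mem hne
  refine netWeight_le (aleph0_le_weight S) (𝒩 := (fun B : Set S => Subtype.val '' B) '' ℬ)
    ?_ ?_ ?_
  · rintro _ ⟨B, -, rfl⟩
    rintro _ ⟨x, -, rfl⟩
    exact x.2
  · intro x hx U hU hxU
    obtain ⟨B, hB, hxB, hBU⟩ := h1.exists_subset_of_mem_open
      (show (⟨x, hx⟩ : S) ∈ Subtype.val ⁻¹' U from hxU) (hU.preimage continuous_subtype_val)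
    refine ⟨_, ⟨B, hB, rfl⟩, ⟨⟨x, hx⟩, hxB, rfl⟩, ?_⟩
    rintro _ ⟨y, hy, rfl⟩
    exact hBU hy
  · exact mk_image_le.trans (h2.le.trans le_sup_right)

theorem netWeight_mono {S T : Set E} (h : S ⊆ T) : netWeight S ≤ netWeight T := by
  obtain ⟨𝒩, h1, h2, h3⟩ := exists_net T
  refine netWeight_le (aleph0_le_netWeight T) (𝒩 := (fun N => N ∩ S) '' 𝒩) ?_ ?_ ?_
  · rintro _ ⟨N, -, rfl⟩
    exact inter_subset_right
  · intro x hx U hU hxU
    obtain ⟨N, hN, hxN, hNU⟩ := h2 x (h hx) U hU hxU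
    exact ⟨_, ⟨N, hN, rfl⟩, ⟨hxN, hx⟩, inter_subset_left.trans hNU⟩
  · exact mk_image_le.trans h3

theorem weight_extremePoints [LocallyConvexSpace ℝ E] [T2Space E] {K : Set E}
    (hK : IsCompact K) (hKc : Convex ℝ K) :
    weight (K.extremePoints ℝ) = netWeight (K.extremePoints ℝ) := by
  refine le_antisymm ?_ (netWeight_le_weight _)
  set κ := netWeight (K.extremePoints ℝ) with hκdef
  have hκ : ℵ₀ ≤ κ := aleph0_le_netWeight _
  obtain ⟨𝒩, -, h2, h3⟩ := exists_net (K.extremePoints ℝ)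
  obtain ⟨D, hDc, hD⟩ := exists_good hK hKc 𝒩 h2 κ hκ h3
  refine weight_le hκ (ℬ := range (fun s : Finset (D × ℚ × ℚ) =>
    (Subtype.val ⁻¹' (box D s) : Set (K.extremePoints ℝ)))) ?_ ?_
  · refine TopologicalSpace.isTopologicalBasis_of_isOpen_of_nhds ?_ ?_
    · rintro _ ⟨s, rfl⟩
      exact (isOpen_box D s).preimage continuous_subtype_val
    · rintro ⟨x, hx⟩ V hxV hV
      obtain ⟨U, hU, rfl⟩ := isOpen_induced_iff.1 hV
      have hfib := fib_eq_singleton hK hKc hD hx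
      obtain ⟨s, hs, hsU⟩ := exists_box hK (D := D) (x := x) (fun y hy hya => by
        have : y ∈ fib K D x := ⟨hy, hya⟩
        rw [hfib] at this
        exact this) hU hxV
      exact ⟨_, ⟨s, rfl⟩, hs, fun y hy => hsU ⟨hy, y.2.1⟩⟩
  · exact mk_range_le.trans (card_finset_le hκ hDc)

/-! ### The Bauer-Dini lemma -/

theorem bauer_dini [LocallyConvexSpace ℝ E] [T2Space E] {K : Set E} (hK : IsCompact K)
    {L : Set (Aff E)}
    (hne : L.Nonempty) (hdir : ∀ a ∈ L, ∀ b ∈ L, ∃ c ∈ L, ∀ y ∈ K, ev a y ≤ ev c y ∧ ev b y ≤ ev c y)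
    (h : Aff E) (hE : ∀ z ∈ K.extremePoints ℝ, ∃ a ∈ L, ev h z < ev a z) :
    ∃ a ∈ L, ∀ y ∈ K, ev h y < ev a y := by
  by_contra hcon
  push Not at hcon
  have : Nonempty L := hne.to_subtype
  -- a point below `h`
  have h0 : ∃ y ∈ K, ∀ a ∈ L, ev a y - ev h y ≤ 0 := by
    have hn : (⋂ a : L, (K ∩ {y | ev a.1 y ≤ ev h y})).Nonempty := by
      refine IsCompact.nonempty_iInter_of_directed_nonempty_isCompact_isClosed _ ?_ ?_ ?_ ?_
      · intro a b
        obtain ⟨c, hc, hcab⟩ := hdir a.1 a.2 b.1 b.2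
        exact ⟨⟨c, hc⟩, fun y hy => ⟨hy.1, (hcab y hy.1).1.trans hy.2⟩,
          fun y hy => ⟨hy.1, (hcab y hy.1).2.trans hy.2⟩⟩
      · intro a
        obtain ⟨y, hy, hya⟩ := hcon a.1 a.2
        exact ⟨y, hy, hya⟩
      · intro a
        exact hK.inter_right (isClosed_le (continuous_ev _) (continuous_ev _))
      · intro a
        exact hK.isClosed.inter (isClosed_le (continuous_ev _) (continuous_ev _))
    obtain ⟨y, hy⟩ := hn
    rw [mem_iInter] at hy
    obtain ⟨a₀, ha₀⟩ := hne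
    refine ⟨y, (hy ⟨a₀, ha₀⟩).1, fun a ha => ?_⟩
    have := (hy ⟨a, ha⟩).2
    simp only [mem_ofPred_eq] at this
    linarith
  set S : Set ℝ := {c | ∃ y ∈ K, ∀ a ∈ L, ev a y - ev h y ≤ c} with hS
  have hS0 : (0 : ℝ) ∈ S := h0
  have hSb : BddBelow S := by
    obtain ⟨a₀, ha₀⟩ := hne
    have hKne : K.Nonempty := by
      obtain ⟨y, hy, -⟩ := h0
      exact ⟨y, hy⟩
    obtain ⟨y₀, hy₀, hmin⟩ := hK.exists_isMinOn hKne
      ((continuous_ev a₀).sub (continuous_ev h)).continuousOn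
    refine ⟨ev a₀ y₀ - ev h y₀, ?_⟩
    rintro c ⟨y, hy, hc⟩
    exact (hmin hy).trans (hc a₀ ha₀)
  set c₀ := sInf S with hc₀
  have hc₀0 : c₀ ≤ 0 := csInf_le hSb hS0
  set G : Set E := {y | y ∈ K ∧ ∀ a ∈ L, ev a y - ev h y ≤ c₀} with hG
  have hclosed : ∀ c : ℝ, IsClosed {y | y ∈ K ∧ ∀ a ∈ L, ev a y - ev h y ≤ c} := by
    intro c
    have : {y | y ∈ K ∧ ∀ a ∈ L, ev a y - ev h y ≤ c} =
        K ∩ ⋂ a ∈ L, {y | ev a y - ev h y ≤ c} := by
      ext y
      simp
    rw [this]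
    exact hK.isClosed.inter (isClosed_biInter fun a _ =>
      isClosed_le ((continuous_ev a).sub (continuous_ev h)) continuous_const)
  have hGne : G.Nonempty := by
    have hn : (⋂ n : ℕ, {y | y ∈ K ∧ ∀ a ∈ L, ev a y - ev h y ≤ c₀ + 1 / ((n : ℝ) + 1)}).Nonempty := by
      refine IsCompact.nonempty_iInter_of_sequence_nonempty_isCompact_isClosed _ ?_ ?_ ?_ ?_
      · rintro n y ⟨hy, hya⟩
        refine ⟨hy, fun a ha => (hya a ha).trans ?_⟩
        have : 1 / (((n + 1 : ℕ) : ℝ) + 1) ≤ 1 / ((n : ℝ) + 1) := by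
          apply one_div_le_one_div_of_le (by positivity)
          push_cast
          linarith
        linarith
      · intro n
        have hpos : (0 : ℝ) < 1 / ((n : ℝ) + 1) := by positivity
        obtain ⟨c, ⟨y, hy, hyc⟩, hc⟩ := exists_lt_of_csInf_lt ⟨0, hS0⟩
          (show sInf S < c₀ + 1 / ((n : ℝ) + 1) by rw [← hc₀]; linarith)
        exact ⟨y, hy, fun a ha => (hyc a ha).trans hc.le⟩
      · exact hK.of_isClosed_subset (hclosed _) fun y hy => hy.1
      · exact fun n => hclosed _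
    obtain ⟨y, hy⟩ := hn
    rw [mem_iInter] at hy
    refine ⟨y, (hy 0).1, fun a ha => ?_⟩
    refine le_of_forall_pos_le_add fun ε hε => ?_
    obtain ⟨n, hn⟩ := exists_nat_one_div_lt hε
    exact ((hy n).2 a ha).trans (by linarith)
  have hGex : IsExtreme ℝ K G := by
    refine ⟨fun y hy => hy.1, ?_⟩
    rintro u hu v hv y ⟨hyK, hy⟩ ⟨s, t, hs, ht, hst, rfl⟩
    refine ⟨hu, fun a ha => ?_⟩
    by_contra hlt
    push Not at hlt
    set δ := ev a u - ev h u - c₀ with hδ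
    have hδpos : 0 < δ := by linarith
    -- `v` is not much below
    have h1 : ∃ b ∈ L, c₀ - s * δ / t / 2 < ev b v - ev h v := by
      by_contra hcon2
      push Not at hcon2
      have : c₀ - s * δ / t / 2 ∈ S := ⟨v, hv, hcon2⟩
      have h2 := csInf_le hSb this
      have h3 : 0 < s * δ / t / 2 := by positivity
      linarith
    obtain ⟨b, hb, hbv⟩ := h1
    obtain ⟨d, hd, hdab⟩ := hdir a ha b hb
    have h2 := hy d hd
    rw [ev_comb d hst, ev_comb h hst] at h2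
    have h3 := (hdab u hu).1
    have h4 := (hdab v hv).2
    have h5 : t * (s * δ / t / 2) = s * δ / 2 := by field_simp
    have h6 : s * (c₀ + δ) ≤ s * (ev d u - ev h u) := by
      apply mul_le_mul_of_nonneg_left _ hs.le
      linarith
    have h7 : t * (c₀ - s * δ / t / 2) ≤ t * (ev d v - ev h v) := by
      apply mul_le_mul_of_nonneg_left _ ht.le
      linarith
    have h8 : s * c₀ + t * c₀ = c₀ := by rw [← add_mul, hst, one_mul]
    have h9 : 0 < s * δ := by positivity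
    nlinarith
  have hGcpt : IsCompact G := hK.of_isClosed_subset (hclosed c₀) fun y hy => hy.1
  obtain ⟨z, hz⟩ := hGcpt.extremePoints_nonempty hGne
  obtain ⟨a, ha, haz⟩ := hE z (hGex.extremePoints_subset_extremePoints hz)
  have := hz.1.2 a ha
  linarith

end Pool.Agent.Helper54.CC
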