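import Mathlib
import Pool.Agent.Helper54.CC.Main

/-!
The network weight of a Choquet simplex is the network weight of its set of extreme points.
-/

set_option autoImplicit false
set_option linter.unusedSectionVars false

open Set Cardinal
open scoped Pointwise

namespace Pool.Agent.Helper54.CC

variable {E : Type} [AddCommGroup E] [Module ℝ E] [TopologicalSpace E]
  [IsTopologicalAddGroup E] [ContinuousSMul ℝ E]

theorem ev_nsmul (n : ℕ) (a : Aff E) (y : E) : ev (n • a) y = n * ev a y := by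
  unfold ev
  simp
  ring

theorem Good.nsmul {K : Set E} {D : Set (Aff E)} (hD : Good K D) {a : Aff E} (ha : a ∈ D)
    (n : ℕ) : n • a ∈ D := by
  induction n with
  | zero =>
    have := hD.const 0
    rw [zero_smul]
    convert this using 1
    unfold cst
    rw [Rat.cast_zero]
    rfl
  | succ n ih =>
    rw [succ_nsmul]
    exact hD.add _ ih _ ha

/-- functions that are small at `x` and large outside a neighbourhood of `x` -/
theorem Good.exists_bump {K : Set E} {D : Set (Aff E)} (hD : Good K D) {x : E}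
    (hx : x ∈ K.extremePoints ℝ) (M : ℝ) (s : Finset (D × ℚ × ℚ)) (hs : x ∈ box D s) :
    ∀ ε : ℝ, 0 < ε → ∃ b ∈ D, (∀ y ∈ K, 0 ≤ ev b y) ∧ (∀ y ∈ K, y ∉ box D s → M ≤ ev b y) ∧
      ev b x < ε := by
  classical
  induction s using Finset.induction_on with
  | empty =>
    intro ε hε
    refine ⟨cst ((0 : ℚ) : ℝ), hD.const 0, fun y _ => ?_, fun y _ hy => ?_, ?_⟩
    · rw [ev_cst, Rat.cast_zero]
    · exact absurd (by simp [box]) hy
    · rw [ev_cst, Rat.cast_zero]
      exact hε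
  | insert p s hp ih =>
    intro ε hε
    have hs1 : x ∈ box D s := fun q hq => hs q (Finset.mem_insert_of_mem hq)
    obtain ⟨b, hb, hb0, hbM, hbx⟩ := ih hs1 (ε / 2) (by linarith)
    obtain ⟨hp1, hp2⟩ := hs p (Finset.mem_insert_self _ _)
    set g := p.1.1 with hg
    set δ := min (ev g x - p.2.1) (p.2.2 - ev g x) with hδ
    have hδpos : 0 < δ := lt_min (by linarith) (by linarith)
    obtain ⟨n, hn⟩ := exists_nat_gt (2 * |M| / δ)
    have hn0 : (0 : ℝ) < n + 1 := by positivity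
    -- a rational very close to `ev g x`
    set η := min (δ / 2) (ε / 2 / (n + 1)) with hη
    have hηpos : 0 < η := lt_min (by linarith) (by positivity)
    obtain ⟨q, hq1, hq2⟩ := exists_rat_btwn (show ev g x < ev g x + η by linarith)
    have hqx : |ev g x - q| < η := abs_lt.2 ⟨by linarith, by linarith⟩
    obtain ⟨a, ha, haK, hax⟩ := hD.exists_abs p.1.2 q hx hqx
    have hsum : b + (n + 1) • a ∈ D := hD.add _ hb _ (hD.nsmul ha _)
    have hev : ∀ y, ev (b + (n + 1) • a) y = ev b y + (n + 1) * ev a y := fun y => by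
      rw [ev_add, ev_nsmul]
      push_cast
      rfl
    refine ⟨_, hsum, fun y hy => ?_, fun y hy hyb => ?_, ?_⟩
    · rw [hev]
      have h1 := haK y hy
      have h2 := abs_nonneg (ev p.1.1 y - q)
      have h3 := hb0 y hy
      have h4 : 0 ≤ ev a y := by linarith
      positivity
    · rw [hev]
      have h1 := haK y hy
      have h3 := hb0 y hy
      have h4 : 0 ≤ ev a y := (abs_nonneg _).trans h1.le
      by_cases hys : y ∈ box D s
      · -- then `y` violates the condition `p`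
        have hviol : ev g y ≤ p.2.1 ∨ (p.2.2 : ℝ) ≤ ev g y := by
          by_contra hcon
          push Not at hcon
          apply hyb
          intro r hr
          rcases Finset.mem_insert.1 hr with h | h
          · subst h
            exact ⟨hcon.1, hcon.2⟩
          · exact hys r h
        have h5 : δ / 2 ≤ |ev g y - q| := by
          have hη2 : η ≤ δ / 2 := min_le_left _ _
          rcases hviol with h | h
          · have h6 : δ ≤ ev g x - p.2.1 := min_le_left _ _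
            rw [abs_of_nonpos (by linarith)]
            linarith
          · have h6 : δ ≤ p.2.2 - ev g x := min_le_right _ _
            rw [abs_of_nonneg (by linarith)]
            linarith
        have h6 : δ / 2 < ev a y := lt_of_le_of_lt h5 h1
        have h7 : |M| < (n + 1) * (δ / 2) := by
          rw [div_lt_iff₀ hδpos] at hn
          nlinarith [abs_nonneg M]
        have h8 : (n + 1 : ℝ) * (δ / 2) ≤ (n + 1) * ev a y :=
          mul_le_mul_of_nonneg_left h6.le hn0.le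
        linarith [le_abs_self M]
      · have h5 := hbM y hy hys
        have : 0 ≤ ((n : ℝ) + 1) * ev a y := by positivity
        linarith
    · rw [hev]
      have h1 : ev a x < ε / 2 / (n + 1) := hax.trans_le (min_le_right _ _)
      rw [lt_div_iff₀ hn0] at h1
      linarith

/-- upper approximation at extreme points by members of `D` -/
theorem Good.exists_above [LocallyConvexSpace ℝ E] [T2Space E] {K : Set E} (hK : IsCompact K)
    (hKc : Convex ℝ K) {D : Set (Aff E)} (hD : Good K D) {x : E} (hx : x ∈ K.extremePoints ℝ)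
    (h : Aff E) {c : ℝ} (hc : ev h x < c) :
    ∃ a ∈ D, (∀ y ∈ K, ev h y < ev a y) ∧ ev a x < c := by
  obtain ⟨q, hq1, hq2⟩ := exists_rat_btwn hc
  have hfib := fib_eq_singleton hK hKc hD hx
  obtain ⟨s, hs, hsU⟩ := exists_box hK (D := D) (x := x) (fun y hy hya => by
    have : y ∈ fib K D x := ⟨hy, hya⟩
    rw [hfib] at this
    exact this) (U := {y | ev h y < q}) (isOpen_lt (continuous_ev h) continuous_const) hq1
  obtain ⟨y₀, -, hmax⟩ := hK.exists_isMaxOn ⟨x, hx.1⟩ (continuous_ev h).continuousOn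
  obtain ⟨b, hb, hb0, hbM, hbx⟩ := hD.exists_bump hx (ev h y₀ - q + 1) s hs (c - q)
    (by linarith)
  refine ⟨b + cst (q : ℝ), hD.add _ hb _ (hD.const q), fun y hy => ?_, ?_⟩
  · rw [ev_add, ev_cst]
    by_cases hys : y ∈ box D s
    · have h1 : ev h y < q := hsU ⟨hys, hy⟩
      have h2 := hb0 y hy
      linarith
    · have h1 := hbM y hy hys
      have h2 : ev h y ≤ ev h y₀ := hmax hy
      linarith
  · rw [ev_add, ev_cst]
    linarith

theorem Good.exists_between_two [LocallyConvexSpace ℝ E] [T2Space E] {K : Set E}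
    (hK : IsCompact K) (hKc : Convex ℝ K) (hne : K.Nonempty) (hS : IsChoquetSimplex K)
    {D : Set (Aff E)} (hD : Good K D) (h a₁ a₂ : Aff E) (ha₁ : a₁ ∈ D) (ha₂ : a₂ ∈ D)
    (h₁ : ∀ y ∈ K, ev h y < ev a₁ y) (h₂ : ∀ y ∈ K, ev h y < ev a₂ y) :
    ∃ a ∈ D, ∀ y ∈ K, ev h y < ev a y ∧ ev a y < ev a₁ y ∧ ev a y < ev a₂ y := by
  have hlow : ∀ z ∈ K.extremePoints ℝ, ∃ a ∈ {a | a ∈ D ∧ ∀ y ∈ K, ev a y < ev a₁ y ∧
      ev a y < ev a₂ y}, ev h z < ev a z := by
    intro z hz
    obtain ⟨g, hg, hg1, hg2⟩ := hD.mx _ (hD.neg _ ha₁) _ (hD.neg _ ha₂) z hz (-ev h z)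
      (by rw [ev_neg]; linarith [h₁ z hz.1]) (by rw [ev_neg]; linarith [h₂ z hz.1])
    refine ⟨-g, ⟨hD.neg _ hg, fun y hy => ?_⟩, by rw [ev_neg]; linarith⟩
    have h3 := hg1 y hy
    rw [ev_neg, ev_neg] at h3
    rw [ev_neg]
    exact ⟨by linarith [h3.1], by linarith [h3.2]⟩
  obtain ⟨z, hz⟩ := hK.extremePoints_nonempty hne
  obtain ⟨a₀, ha₀, -⟩ := hlow z hz
  obtain ⟨a, ⟨ha, ha'⟩, ha2⟩ := bauer_dini hK (L := {a | a ∈ D ∧ ∀ y ∈ K, ev a y < ev a₁ y ∧
      ev a y < ev a₂ y}) ⟨a₀, ha₀⟩ (by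
    rintro a ⟨ha, ha'⟩ b ⟨hb, hb'⟩
    obtain ⟨g, hg, hg'⟩ := hD.interp a ha b hb a₁ ha₁ a₂ ha₂
      (exists_between hK hKc hne hS (fun y hy => (ha' y hy).1) (fun y hy => (ha' y hy).2)
        (fun y hy => (hb' y hy).1) (fun y hy => (hb' y hy).2))
    exact ⟨g, ⟨hg, fun y hy => ⟨(hg' y hy).2.2.1, (hg' y hy).2.2.2⟩⟩,
      fun y hy => ⟨(hg' y hy).1.le, (hg' y hy).2.1.le⟩⟩) h hlow
  exact ⟨a, ha, fun y hy => ⟨ha2 y hy, ha' y hy⟩⟩

/-- density of `D` -/
theorem Good.dense [LocallyConvexSpace ℝ E] [T2Space E] {K : Set E}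
    (hK : IsCompact K) (hKc : Convex ℝ K) (hne : K.Nonempty) (hS : IsChoquetSimplex K)
    {D : Set (Aff E)} (hD : Good K D) (h : Aff E) {ε : ℝ} (hε : 0 < ε) :
    ∃ a ∈ D, ∀ y ∈ K, ev h y < ev a y ∧ ev a y < ev h y + ε := by
  obtain ⟨z, hz⟩ := hK.extremePoints_nonempty hne
  obtain ⟨a₀, ha₀, ha₀', -⟩ := hD.exists_above hK hKc hz h (c := ev h z + 1) (by linarith)
  obtain ⟨a, ⟨b, ⟨hb, hb'⟩, rfl⟩, ha⟩ := bauer_dini hK
    (L := (fun a => -a) '' {a | a ∈ D ∧ ∀ y ∈ K, ev h y < ev a y})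
    ⟨_, ⟨a₀, ⟨ha₀, ha₀'⟩, rfl⟩⟩ (by
      rintro _ ⟨a, ⟨ha, ha'⟩, rfl⟩ _ ⟨b, ⟨hb, hb'⟩, rfl⟩
      obtain ⟨g, hg, hg'⟩ := hD.exists_between_two hK hKc hne hS h a b ha hb ha' hb'
      refine ⟨_, ⟨g, ⟨hg, fun y hy => (hg' y hy).1⟩, rfl⟩, fun y hy => ?_⟩
      simp only [ev_neg]
      exact ⟨by linarith [(hg' y hy).2.1], by linarith [(hg' y hy).2.2]⟩)
    (-h + cst (-ε)) (by
      intro z hz
      obtain ⟨a, ha, ha', haz⟩ := hD.exists_above hK hKc hz h (c := ev h z + ε) (by linarith)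
      refine ⟨_, ⟨a, ⟨ha, ha'⟩, rfl⟩, ?_⟩
      rw [ev_add, ev_cst, ev_neg, ev_neg]
      linarith)
  refine ⟨b, hb, fun y hy => ⟨hb' y hy, ?_⟩⟩
  have := ha y hy
  rw [ev_add, ev_cst, ev_neg, ev_neg] at this
  linarith

theorem netWeight_simplex [LocallyConvexSpace ℝ E] [T2Space E] {K : Set E}
    (hK : IsCompact K) (hKc : Convex ℝ K) (hS : IsChoquetSimplex K) :
    netWeight K = netWeight (K.extremePoints ℝ) := by
  refine le_antisymm ?_ (netWeight_mono extremePoints_subset)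
  set κ := netWeight (K.extremePoints ℝ) with hκdef
  have hκ : ℵ₀ ≤ κ := aleph0_le_netWeight _
  rcases K.eq_empty_or_nonempty with h0 | hne
  · refine netWeight_le hκ (𝒩 := ∅) (by simp) (by simp [h0]) (by simp)
  obtain ⟨𝒩, -, h2, h3⟩ := exists_net (K.extremePoints ℝ)
  obtain ⟨D, hDc, hD⟩ := exists_good hK hKc 𝒩 h2 κ hκ h3
  refine netWeight_le hκ (𝒩 := range (fun s : Finset (D × ℚ × ℚ) => box D s ∩ K)) ?_ ?_ ?_
  · rintro _ ⟨s, rfl⟩
    exact inter_subset_right
  · intro x hx U hU hxU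
    obtain ⟨s, hs, hsU⟩ := exists_box hK (D := D) (x := x) (fun y hy hya => by
      by_contra hne'
      obtain ⟨f, hf⟩ := geometric_hahn_banach_point_point hne'
      obtain ⟨a, ha, ha'⟩ := hD.dense hK hKc hne hS (f, 0) (sub_pos.2 hf)
      have h4 := (ha' y hy).2
      have h5 := (ha' x hx).1
      rw [hya a ha] at h4
      unfold ev at h4 h5
      simp only at h4 h5
      linarith) hU hxU
    exact ⟨_, ⟨s, rfl⟩, ⟨hs, hx⟩, hsU⟩
  · exact mk_range_le.trans (card_finset_le hκ hDc)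

end Pool.Agent.Helper54.CC
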