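import Mathlib
import Pool.Agent.Helper54.CC.Simplex
import Pool.Agent.Helper50.NW.Simons

/-!
If the set of extreme points of a convex compactum is Lindelof, then the network weight of the
compactum is the network weight of its set of extreme points.
-/

set_option autoImplicit false
set_option linter.unusedSectionVars false

open Set Cardinal
open scoped Pointwise

namespace Pool.Agent.Helper54.CC

open Pool.Agent.Helper50.NW (simons tailHull tailHull_subset_of)

variable {E : Type} [AddCommGroup E] [Module ℝ E] [TopologicalSpace E]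
  [IsTopologicalAddGroup E] [ContinuousSMul ℝ E]

/-! ### Convex continuous functions -/

/-- continuous convex functions on `K`, as a subset of `C(K, ℝ)` -/
def cvxSet (K : Set E) : Set C(K, ℝ) :=
  {g | ∀ x y z : K, ∀ a b : ℝ, 0 ≤ a → 0 ≤ b → a + b = 1 →
    (z : E) = a • (x : E) + b • (y : E) → g z ≤ a * g x + b * g y}

theorem cvxSet_convex (K : Set E) : Convex ℝ (cvxSet K) := by
  intro g hg h hh u v hu hv _ x y z a b ha hb hab hz
  simp only [ContinuousMap.add_apply, ContinuousMap.smul_apply, smul_eq_mul]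
  have h1 := mul_le_mul_of_nonneg_left (hg x y z a b ha hb hab hz) hu
  have h2 := mul_le_mul_of_nonneg_left (hh x y z a b ha hb hab hz) hv
  linarith

theorem cvxSet_closed (K : Set E) [CompactSpace K] : IsClosed (cvxSet K) := by
  have : cvxSet K = ⋂ (x : K) (y : K) (z : K) (a : ℝ) (b : ℝ) (_ : 0 ≤ a) (_ : 0 ≤ b)
      (_ : a + b = 1) (_ : (z : E) = a • (x : E) + b • (y : E)),
      {g : C(K, ℝ) | g z ≤ a * g x + b * g y} := by
    ext g
    simp only [cvxSet, mem_ofPred_eq, mem_iInter]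
  rw [this]
  refine isClosed_iInter fun x => isClosed_iInter fun y => isClosed_iInter fun z =>
    isClosed_iInter fun a => isClosed_iInter fun b => isClosed_iInter fun _ =>
    isClosed_iInter fun _ => isClosed_iInter fun _ => isClosed_iInter fun _ => ?_
  exact isClosed_le (continuous_eval_const z)
    ((continuous_const.mul (continuous_eval_const x)).add
      (continuous_const.mul (continuous_eval_const y)))

/-- **Bauer's maximum principle** for continuous convex functions. -/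
theorem bauer_cvx [LocallyConvexSpace ℝ E] [T2Space E] {K : Set E} (hK : IsCompact K)
    [Nonempty K] {g : C(K, ℝ)}
    (hg : g ∈ cvxSet K) : ∃ b : K, (b : E) ∈ extremePoints ℝ K ∧ ∀ x, g x ≤ g b := by
  have : CompactSpace K := isCompact_iff_compactSpace.1 hK
  obtain ⟨m, -, hm⟩ := isCompact_univ.exists_isMaxOn (Set.univ_nonempty (α := K))
    g.continuous.continuousOn
  have hm' : ∀ x, g x ≤ g m := fun x => hm (mem_univ x)
  -- the face
  set F : Set E := (↑) '' {x : K | g x = g m} with hF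
  have hFc : IsCompact F :=
    ((isClosed_eq g.continuous continuous_const).isCompact).image continuous_subtype_val
  have hFne : F.Nonempty := ⟨m, m, rfl, rfl⟩
  have hFK : F ⊆ K := by
    rintro _ ⟨x, -, rfl⟩
    exact x.2
  have hext : IsExtreme ℝ K F := by
    refine ⟨hFK, ?_⟩
    rintro x hx y hy z ⟨z, hz, rfl⟩ hxy
    obtain ⟨a, b, ha, hb, hab, hz'⟩ := hxy
    have h1 := hg ⟨x, hx⟩ ⟨y, hy⟩ z a b ha.le hb.le hab hz'.symm
    have h2 := hm' ⟨x, hx⟩
    have h3 := hm' ⟨y, hy⟩
    refine ⟨⟨x, hx⟩, ?_, rfl⟩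
    simp only [mem_ofPred_eq] at hz ⊢
    rw [hz] at h1
    have hg1 : g m = a * g m + b * g m := by rw [← add_mul, hab, one_mul]
    have h4 : a * (g m - g ⟨x, hx⟩) ≤ 0 := by nlinarith [mul_le_mul_of_nonneg_left h3 hb.le]
    have h5 : g m - g ⟨x, hx⟩ ≤ 0 := by
      by_contra h6
      push Not at h6
      have := mul_pos ha h6
      linarith
    linarith
  obtain ⟨e, he⟩ := hFc.extremePoints_nonempty hFne
  have heK := hext.extremePoints_subset_extremePoints he
  obtain ⟨e', he', rfl⟩ := he.1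
  exact ⟨e', heK, fun x => by rw [he']; exact hm' x⟩

/-- Affine functions below a bounded sequence of nonnegative functions that tends to zero at the
extreme points. -/
theorem exists_small [LocallyConvexSpace ℝ E] [T2Space E] {K : Set E} (hK : IsCompact K)
    (g : ℕ → E → ℝ) (M : ℝ) (hgM : ∀ n, ∀ x ∈ K, g n x ≤ M) (hg0 : ∀ n, ∀ x ∈ K, 0 ≤ g n x)
    (hgE : ∀ x ∈ K.extremePoints ℝ, ∀ ε : ℝ, 0 < ε → ∃ n, ∀ k, n ≤ k → g k x < ε)
    (a : ℕ → Aff E) (ha : ∀ n, ∀ x ∈ K, ev (a n) x ≤ g n x) {y : E} (hy : y ∈ K) {ε : ℝ}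
    (hε : 0 < ε) : ∃ n, ev (a n) y < ε := by
  by_contra hcon
  push Not at hcon
  have : CompactSpace K := isCompact_iff_compactSpace.1 hK
  have : Nonempty K := ⟨⟨y, hy⟩⟩
  set c : ℕ → C(K, ℝ) := fun n => ⟨fun x => max (ev (a n) x) 0,
    ((continuous_ev (a n)).comp continuous_subtype_val).max continuous_const⟩ with hc
  have hcv : ∀ n (x : K), c n x = max (ev (a n) x) 0 := fun n x => rfl
  have hcmem : ∀ n, c n ∈ cvxSet K := by
    intro n x z w s t hs ht hst hw
    rw [hcv, hcv, hcv, hw, ev_comb _ hst]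
    have h1 := mul_le_mul_of_nonneg_left (le_max_left (ev (a n) x) 0) hs
    have h2 := mul_le_mul_of_nonneg_left (le_max_left (ev (a n) z) 0) ht
    have h3 := mul_nonneg hs (le_max_right (ev (a n) x) 0)
    have h4 := mul_nonneg ht (le_max_right (ev (a n) z) 0)
    exact max_le (by linarith) (by linarith)
  obtain ⟨b, hb, hbn⟩ := simons {b : K | (b : E) ∈ extremePoints ℝ K} c M
    (fun n x => by
      rw [hcv, abs_of_nonneg (le_max_right _ _)]
      exact max_le ((ha n x x.2).trans (hgM n x x.2)) ((hg0 n x x.2).trans (hgM n x x.2)))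
    (fun u hu => bauer_cvx hK (tailHull_subset_of _ 0 (cvxSet_convex K) (cvxSet_closed K)
      (fun k _ => hcmem k) hu)) ⟨y, hy⟩ ε (fun n => by
        rw [hcv]
        exact (hcon n).trans (le_max_left _ _)) (ε / 2) (by linarith)
  obtain ⟨n, hn⟩ := hgE b hb (ε / 2) (by linarith)
  obtain ⟨k, hnk, hk⟩ := hbn n
  have h1 := hn k hnk
  rw [hcv] at hk
  have h2 : max (ev (a k) b) 0 ≤ g k b := max_le (ha k b b.2) (hg0 k b b.2)
  linarith

/-! ### Finite minima -/

/-- the minimum of a nonempty finite list of members of `D` -/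
def mn {D : Set (Aff E)} (p : D × List D) (y : E) : ℝ :=
  p.2.foldr (fun b t => min (ev b.1 y) t) (ev p.1.1 y)

theorem mn_le_fst {D : Set (Aff E)} (p : D × List D) (y : E) : mn p y ≤ ev p.1.1 y := by
  obtain ⟨a, l⟩ := p
  induction l with
  | nil => exact le_rfl
  | cons b l ih =>
    exact (min_le_right _ _).trans ih

theorem mn_le {D : Set (Aff E)} (p : D × List D) {b : D} (hb : b ∈ p.2) (y : E) :
    mn p y ≤ ev b.1 y := by
  obtain ⟨a, l⟩ := p
  induction l with
  | nil => simp at hb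
  | cons c l ih =>
    rcases List.mem_cons.1 hb with h | h
    · subst h
      exact min_le_left _ _
    · exact (min_le_right _ _).trans (ih h)

theorem lt_mn {D : Set (Aff E)} (p : D × List D) {y : E} {t : ℝ} (h1 : t < ev p.1.1 y)
    (h2 : ∀ b ∈ p.2, t < ev b.1 y) : t < mn p y := by
  obtain ⟨a, l⟩ := p
  induction l with
  | nil => exact h1
  | cons c l ih =>
    exact lt_min (h2 c (by simp)) (ih h1 fun b hb => h2 b (List.mem_cons_of_mem _ hb))

/-! ### The hulls -/

/-- the common epigraph over `K` -/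
def epi {m : ℕ} (K : Set E) (F : Fin m → E → ℝ) : Set (E × (Fin m → ℝ)) :=
  {p | p.1 ∈ K ∧ ∀ j, F j p.1 ≤ p.2 j}

theorem prod_apply {m : ℕ} (f : (E × (Fin m → ℝ)) →L[ℝ] ℝ) (x : E) (t : Fin m → ℝ) :
    f (x, t) = f (x, 0) + ∑ j, t j * f (0, Pi.single j 1) := by
  have h : (x, t) = (x, (0 : Fin m → ℝ)) + ∑ j, t j • ((0 : E), (Pi.single j 1 : Fin m → ℝ)) := by
    refine Prod.ext ?_ ?_
    · simp [Prod.fst_sum]
    · simp only [Prod.snd_add, Prod.snd_sum, Prod.smul_snd, zero_add]
      ext i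
      simp [Finset.sum_apply, Pi.single_apply]
  rw [h, map_add, map_sum]
  simp only [map_smul, smul_eq_mul]

theorem ev_smul (c : ℝ) (a : Aff E) (y : E) : ev (c • a) y = c * ev a y := by
  unfold ev
  simp
  ring

theorem ev_sum {m : ℕ} (a : Fin m → Aff E) (y : E) :
    ev (∑ j, a j) y = ∑ j, ev (a j) y := by
  unfold ev
  rw [Prod.fst_sum, Prod.snd_sum, Finset.sum_add_distrib]
  simp

theorem hull_alternative [LocallyConvexSpace ℝ E] [T2Space E] {K : Set E} {m : ℕ}
    (F : Fin m → E → ℝ) (h : Fin m → Aff E) (hF : ∀ j, ∀ x ∈ K, ev (h j) x ≤ F j x)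
    {y : E} (hy : y ∈ K) (r : Fin m → ℝ) {ε : ℝ} (hr : ∀ j, ev (h j) y + ε ≤ r j)
    (hn : (y, r) ∉ closure (convexHull ℝ (epi K F))) :
    ∃ a : Aff E, (∀ x ∈ K, ev a x ≤ ∑ j, (F j x - ev (h j) x)) ∧ ε ≤ ev a y := by
  obtain ⟨f, u, hu, huy⟩ := geometric_hahn_banach_closed_point
    ((convex_convexHull ℝ (epi K F)).closure) isClosed_closure hn
  have hepi : ∀ p ∈ epi K F, f p < u := fun p hp =>
    hu p (subset_closure (subset_convexHull ℝ _ hp))
  set l : Fin m → ℝ := fun j => -f (0, Pi.single j 1) with hl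
  have hfe : ∀ x t, f (x, t) = f (x, 0) - ∑ j, t j * l j := by
    intro x t
    rw [prod_apply, hl]
    simp only [mul_neg, Finset.sum_neg_distrib, sub_neg_eq_add]
  -- the coefficients are nonnegative
  have hl0 : ∀ j, 0 ≤ l j := by
    intro j
    by_contra hneg
    push Not at hneg
    obtain ⟨N, hN⟩ := exists_nat_gt ((u - f (y, fun j => F j y)) / (-l j))
    rw [div_lt_iff₀ (by linarith)] at hN
    have h1 : (y, (fun j => F j y) + Pi.single j (N : ℝ)) ∈ epi K F := by
      refine ⟨hy, fun i => ?_⟩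
      simp only [Pi.add_apply]
      by_cases hij : i = j
      · subst hij
        rw [Pi.single_eq_same]
        linarith [Nat.cast_nonneg (α := ℝ) N]
      · rw [Pi.single_eq_of_ne hij]
        linarith
    have h2 := hepi _ h1
    rw [hfe] at h2
    rw [hfe] at hN
    simp only [Pi.add_apply, add_mul, Finset.sum_add_distrib] at h2
    have h3 : ∑ i, (Pi.single j (N : ℝ) : Fin m → ℝ) i * l i = N * l j := by
      rw [Finset.sum_eq_single j]
      · rw [Pi.single_eq_same]
      · intro i _ hij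
        rw [Pi.single_eq_of_ne hij, zero_mul]
      · intro hj
        exact absurd (Finset.mem_univ j) hj
    rw [h3] at h2
    linarith
  have hgr : ∀ x ∈ K, f (x, 0) - ∑ j, F j x * l j < u := by
    intro x hx
    rw [← hfe]
    exact hepi _ ⟨hx, fun j => le_rfl⟩
  have hyr : u < f (y, 0) - ∑ j, r j * l j := by
    rw [← hfe]
    exact huy
  set L : ℝ := ∑ j, l j with hL
  have hL0 : 0 < L := by
    rcases (Finset.sum_nonneg fun j _ => hl0 j : 0 ≤ L).eq_or_lt with h0 | h0
    · exfalso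
      have hz : ∀ j, l j = 0 := fun j =>
        (Finset.sum_eq_zero_iff_of_nonneg fun j _ => hl0 j).1 h0.symm j (Finset.mem_univ j)
      have h1 := hgr y hy
      simp only [hz, mul_zero, Finset.sum_const_zero, sub_zero] at h1 hyr
      linarith
    · exact h0
  have hlL : ∀ j, l j ≤ L := fun j =>
    Finset.single_le_sum (fun i _ => hl0 i) (Finset.mem_univ j)
  set A : Aff E := (f.comp (ContinuousLinearMap.inl ℝ E (Fin m → ℝ)), -u) with hA
  have hAv : ∀ x, ev A x = f (x, 0) - u := fun x => by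
    unfold ev
    rw [hA]
    simp [sub_eq_add_neg]
  refine ⟨L⁻¹ • (A + -(∑ j, l j • h j)), fun x hx => ?_, ?_⟩
  · rw [ev_smul, ev_add, ev_neg, ev_sum, hAv, inv_mul_le_iff₀ hL0, Finset.mul_sum]
    have h1 := hgr x hx
    have h2 : ∑ j, l j * (F j x - ev (h j) x) ≤ ∑ j, L * (F j x - ev (h j) x) :=
      Finset.sum_le_sum fun j _ =>
        mul_le_mul_of_nonneg_right (hlL j) (by linarith [hF j x hx])
    have h3 : ∑ j, l j * (F j x - ev (h j) x) =
        ∑ j, F j x * l j - ∑ j, ev (l j • h j) x := by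
      rw [← Finset.sum_sub_distrib]
      refine Finset.sum_congr rfl fun j _ => ?_
      rw [ev_smul]
      ring
    linarith
  · rw [ev_smul, ev_add, ev_neg, ev_sum, hAv, le_inv_mul_iff₀ hL0, hL, Finset.sum_mul]
    have h2 : ∑ j, l j * ε ≤ ∑ j, l j * (r j - ev (h j) y) :=
      Finset.sum_le_sum fun j _ =>
        mul_le_mul_of_nonneg_left (by linarith [hr j]) (hl0 j)
    have h3 : ∑ j, l j * (r j - ev (h j) y) =
        ∑ j, r j * l j - ∑ j, ev (l j • h j) y := by
      rw [← Finset.sum_sub_distrib]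
      refine Finset.sum_congr rfl fun j _ => ?_
      rw [ev_smul]
      ring
    linarith

theorem hull_le [T2Space E] {K : Set E} (hK : IsClosed K) (hKc : Convex ℝ K) {m : ℕ}
    (F : Fin m → E → ℝ) (h : Fin m → Aff E) (hF : ∀ j, ∀ x ∈ K, ev (h j) x ≤ F j x)
    {z : E} {r : Fin m → ℝ} (hz : (z, r) ∈ closure (convexHull ℝ (epi K F))) :
    z ∈ K ∧ ∀ j, ev (h j) z ≤ r j := by
  set T : Set (E × (Fin m → ℝ)) := {p | p.1 ∈ K ∧ ∀ j, ev (h j) p.1 ≤ p.2 j} with hT
  have hTc : Convex ℝ T := by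
    rintro ⟨x, t⟩ ⟨hx, ht⟩ ⟨x', t'⟩ ⟨hx', ht'⟩ a b ha hb hab
    refine ⟨hKc hx hx' ha hb hab, fun j => ?_⟩
    simp only [Prod.fst_add, Prod.smul_fst, Prod.snd_add, Prod.smul_snd, Pi.add_apply,
      Pi.smul_apply, smul_eq_mul]
    rw [ev_comb _ hab]
    exact add_le_add (mul_le_mul_of_nonneg_left (ht j) ha) (mul_le_mul_of_nonneg_left (ht' j) hb)
  have hTcl : IsClosed T := by
    have : T = (Prod.fst ⁻¹' K) ∩ ⋂ j, {p : E × (Fin m → ℝ) | ev (h j) p.1 ≤ p.2 j} := by
      ext p
      simp [hT]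
    rw [this]
    refine (hK.preimage continuous_fst).inter (isClosed_iInter fun j => ?_)
    exact isClosed_le ((continuous_ev _).comp continuous_fst)
      ((continuous_apply j).comp continuous_snd)
  have hsub : epi K F ⊆ T := fun p hp => ⟨hp.1, fun j => (hF j _ hp.1).trans (hp.2 j)⟩
  exact closure_minimal (convexHull_min hsub hTc) hTcl hz

/-! ### Sequences from the Lindelof property -/

theorem exists_seq [LocallyConvexSpace ℝ E] [T2Space E] {K : Set E} (hK : IsCompact K)
    (hKc : Convex ℝ K) (hne : K.Nonempty) (hL : IsLindelof (K.extremePoints ℝ))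
    {D : Set (Aff E)} (hD : Good K D) (h : Aff E) :
    ∃ a : ℕ → D, (∀ n, ∀ y ∈ K, ev h y < ev (a n).1 y) ∧
      ∀ x ∈ K.extremePoints ℝ, ∀ ε : ℝ, 0 < ε → ∃ n, ev (a n).1 x < ev h x + ε := by
  have hsub : ∀ k : ℕ, ∃ r : Set {a : D // ∀ y ∈ K, ev h y < ev a.1 y}, r.Countable ∧
      K.extremePoints ℝ ⊆ ⋃ a ∈ r, {z | ev a.1.1 z < ev h z + 1 / ((k : ℝ) + 1)} := by
    intro k
    refine hL.elim_countable_subcover _ (fun a => isOpen_lt (continuous_ev _)
      ((continuous_ev _).add continuous_const)) ?_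
    intro x hx
    have hpos : (0 : ℝ) < 1 / ((k : ℝ) + 1) := by positivity
    obtain ⟨a, ha, ha1, ha2⟩ := hD.exists_above hK hKc hx h
      (c := ev h x + 1 / ((k : ℝ) + 1)) (by linarith)
    exact mem_iUnion.2 ⟨⟨⟨a, ha⟩, ha1⟩, ha2⟩
  choose r hr hrE using hsub
  have hRc : (⋃ k, r k).Countable := countable_iUnion hr
  obtain ⟨x₀, hx₀⟩ := hK.extremePoints_nonempty hne
  have hRne : (⋃ k, r k).Nonempty := by
    obtain ⟨a, ha⟩ := mem_iUnion.1 (hrE 0 hx₀)
    obtain ⟨ha1, -⟩ := mem_iUnion.1 ha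
    exact ⟨a, mem_iUnion.2 ⟨0, ha1⟩⟩
  obtain ⟨f, hf⟩ := hRc.exists_eq_range hRne
  refine ⟨fun n => (f n).1, fun n => (f n).2, fun x hx ε hε => ?_⟩
  obtain ⟨k, hk⟩ := exists_nat_one_div_lt hε
  obtain ⟨a, ha⟩ := mem_iUnion.1 (hrE k hx)
  obtain ⟨ha1, ha2⟩ := mem_iUnion.1 ha
  have ha3 : a ∈ range f := hf ▸ mem_iUnion.2 ⟨k, ha1⟩
  obtain ⟨n, rfl⟩ := ha3
  refine ⟨n, ?_⟩
  simp only [mem_ofPred_eq] at ha2
  linarith

theorem exists_list [LocallyConvexSpace ℝ E] [T2Space E] {K : Set E} (hK : IsCompact K) {x : E}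
    {U : Set E} (hU : IsOpen U) (hxU : x ∈ U) :
    ∃ l : List (Aff E × ℚ), (∀ p ∈ l, ev p.1 x < p.2) ∧
      ∀ z ∈ K, (∀ p ∈ l, ev p.1 z < p.2) → z ∈ U := by
  obtain ⟨s, hs, hsU⟩ := exists_box hK (D := (univ : Set (Aff E))) (x := x) (fun y _ hya => by
    by_contra hne'
    obtain ⟨f, hf⟩ := geometric_hahn_banach_point_point hne'
    have := hya (f, 0) (mem_univ _)
    unfold ev at this
    simp only at this
    linarith) hU hxU
  refine ⟨s.toList.flatMap (fun p => [(p.1.1, p.2.2), (-p.1.1, -p.2.1)]), ?_, ?_⟩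
  · intro p hp
    obtain ⟨q, hq, hpq⟩ := List.mem_flatMap.1 hp
    obtain ⟨h1, h2⟩ := hs q (Finset.mem_toList.1 hq)
    simp only [List.mem_cons, List.not_mem_nil, or_false] at hpq
    rcases hpq with rfl | rfl
    · exact h2
    · simp only [ev_neg, Rat.cast_neg]
      linarith
  · intro z hz hzl
    refine hsU ⟨fun q hq => ?_, hz⟩
    have h1 := hzl (q.1.1, q.2.2) (List.mem_flatMap.2 ⟨q, Finset.mem_toList.2 hq, by simp⟩)
    have h2 := hzl (-q.1.1, -q.2.1) (List.mem_flatMap.2 ⟨q, Finset.mem_toList.2 hq, by simp⟩)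
    simp only [ev_neg, Rat.cast_neg] at h1 h2
    exact ⟨by linarith, h1⟩

/-! ### The theorem -/

/-- the network -/
def nset {D : Set (Aff E)} (K : Set E) (p : Σ m : ℕ, (Fin m → (D × List D) × ℚ)) : Set E :=
  {z | z ∈ K ∧ (z, fun j => ((p.2 j).2 : ℝ)) ∈
    closure (convexHull ℝ (epi K fun j => mn (p.2 j).1))}

theorem card_param_le {D : Set (Aff E)} {κ : Cardinal.{0}} (hκ : ℵ₀ ≤ κ) (hD : #↥D ≤ κ) :
    #(Σ m : ℕ, (Fin m → (D × List D) × ℚ)) ≤ κ := by
  rw [← Cardinal.mk_congr (List.equivSigmaTuple (α := (D × List D) × ℚ))]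
  refine (Cardinal.mk_list_le_max _).trans (max_le hκ ?_)
  simp only [mk_prod, lift_id]
  have hlist : #(List D) ≤ κ := (Cardinal.mk_list_le_max _).trans (max_le hκ hD)
  have h1 : #↥D * #(List D) ≤ κ := (mul_le_mul' hD hlist).trans (mul_eq_self hκ).le
  exact (mul_le_mul' h1 (mk_le_aleph0.trans hκ)).trans (mul_eq_self hκ).le

theorem netWeight_lindelof [LocallyConvexSpace ℝ E] [T2Space E] {K : Set E}
    (hK : IsCompact K) (hKc : Convex ℝ K) (hL : IsLindelof (K.extremePoints ℝ)) :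
    netWeight K = netWeight (K.extremePoints ℝ) := by
  refine le_antisymm ?_ (netWeight_mono extremePoints_subset)
  set κ := netWeight (K.extremePoints ℝ) with hκdef
  have hκ : ℵ₀ ≤ κ := aleph0_le_netWeight _
  rcases K.eq_empty_or_nonempty with h0 | hne
  · refine netWeight_le hκ (𝒩 := ∅) (by simp) (by simp [h0]) (by simp)
  obtain ⟨𝒩, -, h2, h3⟩ := exists_net (K.extremePoints ℝ)
  obtain ⟨D, hDc, hD⟩ := exists_good hK hKc 𝒩 h2 κ hκ h3
  refine netWeight_le hκ (𝒩 := range (nset (D := D) K)) ?_ ?_ ?_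
  · rintro _ ⟨p, rfl⟩ z hz
    exact hz.1
  swap
  · exact mk_range_le.trans (card_param_le hκ hDc)
  intro y hy U hU hyU
  obtain ⟨l, hl1, hl2⟩ := exists_list hK hU hyU
  set m := l.length with hm
  set h : Fin m → Aff E := fun j => (l.get j).1 with hh
  have hq : ∀ j : Fin m, ∃ q : ℚ, ev (h j) y < q ∧ (q : ℝ) < ((l.get j).2 : ℝ) := fun j =>
    exists_rat_btwn (hl1 _ (l.get_mem j))
  choose q hq1 hq2 using hq
  choose a ha1 ha2 using fun j : Fin m => exists_seq hK hKc hne hL hD (h j)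
  set p : ℕ → Fin m → (D × List D) × ℚ := fun n j => ((a j 0, (List.range n).map (a j)), q j)
    with hp
  set F : ℕ → Fin m → E → ℝ := fun n j => mn (p n j).1 with hFdef
  have hF : ∀ n j, ∀ x ∈ K, ev (h j) x ≤ F n j x := by
    intro n j x hx
    refine (lt_mn _ (ha1 j 0 x hx) ?_).le
    intro b hb
    simp only [hp, List.mem_map] at hb
    obtain ⟨i, -, rfl⟩ := hb
    exact ha1 j i x hx
  have key : ∃ n, (y, fun j => (q j : ℝ)) ∈ closure (convexHull ℝ (epi K (F n))) := by
    by_contra hcon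
    push Not at hcon
    -- a uniform gap
    obtain ⟨ε, hε, hεq⟩ : ∃ ε : ℝ, 0 < ε ∧ ∀ j, ev (h j) y + ε ≤ q j := by
      rcases isEmpty_or_nonempty (Fin m) with he | he
      · exact ⟨1, one_pos, fun j => (he.false j).elim⟩
      · obtain ⟨j₀, -, hj₀⟩ := Finset.exists_min_image Finset.univ
          (fun j => (q j : ℝ) - ev (h j) y) Finset.univ_nonempty
        exact ⟨(q j₀ : ℝ) - ev (h j₀) y, by linarith [hq1 j₀], fun j => by
          have := hj₀ j (Finset.mem_univ j)
          linarith⟩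
    choose b hb1 hb2 using fun n => hull_alternative (F n) h (hF n) hy (fun j => (q j : ℝ)) hεq
      (hcon n)
    set g : ℕ → E → ℝ := fun n x => ∑ j, (F n j x - ev (h j) x) with hg
    obtain ⟨z₀, -, hz₀⟩ := hK.exists_isMaxOn hne
      (show ContinuousOn (fun x => ∑ j, (ev (a j 0).1 x - ev (h j) x)) K from
        (continuous_finsetSum _ fun j _ =>
          (continuous_ev _).sub (continuous_ev _)).continuousOn)
    obtain ⟨n, hn⟩ := exists_small hK g (∑ j, (ev (a j 0).1 z₀ - ev (h j) z₀)) (fun n x hx => by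
        refine le_trans (Finset.sum_le_sum fun j _ => ?_) (hz₀ hx)
        exact sub_le_sub_right (mn_le_fst _ _) _) (fun n x hx =>
          Finset.sum_nonneg fun j _ => by linarith [hF n j x hx]) (fun x hx δ hδ => by
        have hδ' : 0 < δ / (m + 1) := by positivity
        choose N hN using fun j => ha2 j x hx (δ / (m + 1)) hδ'
        refine ⟨(∑ j, N j) + 1, fun k hk => ?_⟩
        have h4 : ∀ j, F k j x - ev (h j) x ≤ δ / (m + 1) := by
          intro j
          have h5 : N j ≤ ∑ i, N i := Finset.single_le_sum (f := N) (fun i _ => Nat.zero_le _)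
            (Finset.mem_univ j)
          have h6 : F k j x ≤ ev (a j (N j)).1 x := by
            refine mn_le _ ?_ x
            simp only [hp, List.mem_map, List.mem_range]
            exact ⟨N j, by omega, rfl⟩
          linarith [hN j]
        have h7 : g k x ≤ ∑ _j : Fin m, δ / ((m : ℝ) + 1) := Finset.sum_le_sum fun j _ => h4 j
        rw [Finset.sum_const, Finset.card_univ, Fintype.card_fin, nsmul_eq_mul] at h7
        have h8 : (m : ℝ) * (δ / (m + 1)) < δ := by
          rw [← mul_div_assoc, div_lt_iff₀ (by positivity)]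
          nlinarith
        linarith) b (fun n x hx => hb1 n x hx) hy hε
    linarith [hb2 n]
  obtain ⟨n, hn⟩ := key
  refine ⟨nset K ⟨m, p n⟩, ⟨_, rfl⟩, ⟨hy, hn⟩, ?_⟩
  rintro z ⟨hz, hz'⟩
  obtain ⟨-, h5⟩ := hull_le hK.isClosed hKc (F n) h (hF n) hz'
  refine hl2 z hz fun p hp => ?_
  obtain ⟨j, rfl⟩ := List.get_of_mem hp
  exact (h5 j).trans_lt (hq2 j)

end Pool.Agent.Helper54.CC
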